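import Pool.Agent.Lib.MP_435286_al.CF.Defs2

/-!
The block of an orientation.
-/

namespace Pool.Agent.Lib.MP_435286_al.CF

open Pointwise Set

namespace Block

variable {V : Type} {Y : SimpleGraph V} {k : ℕ} {N S S' : Set (Set V)}

/-- A consistent orientation of a nested family of tight cuts. -/
structure Ori (Y : SimpleGraph V) (k : ℕ) (N S : Set (Set V)) : Prop where
  ti : ∀ C ∈ N, Tight Y k C
  co : ∀ C ∈ N, Cᶜ ∈ N
  ne : ∀ C ∈ N, ∀ D ∈ N, Nested C D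
  sub : S ⊆ N
  one : ∀ C ∈ N, C ∈ S ↔ Cᶜ ∉ S
  up : ∀ C ∈ S, ∀ D ∈ N, C ⊆ D → D ∈ S
  fin : ∀ x, {C | C ∈ S ∧ x ∉ C}.Finite

/-- The block. -/
def bl (Y : SimpleGraph V) (S : Set (Set V)) : Set V :=
  {x | (∀ C ∈ S, x ∈ C) ∨ ∃ C, Minimal (· ∈ S) C ∧ IsEnd Y C x}

theorem Ori.ex (o : Ori Y k N S) {D : Set V} (hD : D ∈ S) : ∃ C, C ⊆ D ∧ Minimal (· ∈ S) C := by
  obtain ⟨x, hx⟩ := (o.ti D (o.sub hD)).2.2.2.1
  obtain ⟨C, h1, h2⟩ := (o.fin x).exists_le_minimal (a := D) ⟨hD, hx⟩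
  exact ⟨C, h1, h2.1.1, fun E hE hEC => h2.2 ⟨hE, fun q => h2.1.2 (hEC q)⟩ hEC⟩

theorem Ori.cmp (o : Ori Y k N S) {C D : Set V} (hC : Minimal (· ∈ S) C) (hD : D ∈ S) :
    C ⊆ D ∨ Cᶜ ⊆ D := by
  rcases o.ne C (o.sub hC.1) D (o.sub hD) with h | h | h | h
  · exact .inl h
  · exact absurd (o.up C hC.1 _ (o.co D (o.sub hD)) h) ((o.one D (o.sub hD)).1 hD)
  · exact .inr h
  · exact .inl (hC.2 hD (compl_subset_compl.1 h))

theorem Ori.det (o : Ori Y k N S) (o' : Ori Y k N S') {C : Set V} (hC : Minimal (· ∈ S) C)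
    (hC' : Minimal (· ∈ S') C) : S ⊆ S' := by
  intro D hD
  rcases o.cmp hC hD with h | h
  · exact o'.up C hC'.1 D (o.sub hD) h
  · by_contra q
    have h1 : Dᶜ ∈ S' := not_not.1 (mt (o'.one D (o.sub hD)).2 q)
    have h2 : C ⊆ Dᶜ := hC'.2 h1 (compl_subset_comm.1 h)
    exact (o.one D (o.sub hD)).1 hD (o.up C hC.1 _ (o.co D (o.sub hD)) h2)

theorem Ori.core (o : Ori Y k N S) (o' : Ori Y k N S') {x : V} (h : ∀ C ∈ S, x ∈ C)
    (h' : ∀ C ∈ S', x ∈ C) : S ⊆ S' := fun D hD => by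
  by_contra q
  exact h' _ (not_not.1 (mt (o'.one D (o.sub hD)).2 q)) (h D hD)

theorem Ori.isEnd (o : Ori Y k N S) {C : Set V} (hC : Minimal (· ∈ S) C) {y : V}
    (hy : y ∈ bl Y S) (hn : y ∉ C) : IsEnd Y C y := by
  rcases hy with h | ⟨C', hC', p, hp, h⟩
  · exact absurd (h C hC.1) hn
  rcases o.cmp hC' hC.1 with q | q
  · rw [subset_antisymm (hC.2 hC'.1 q) q]
    exact ⟨p, hp, h⟩
  · have h2 : p.2 ∈ C := q hp.2.2
    rcases h with rfl | rfl
    · exact ⟨(p.2, p.1), ⟨hp.1.symm, h2, hn⟩, .inr rfl⟩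
    · exact absurd h2 hn

theorem cob_ne (hY : Y.Connected) {C : Set V} (h : Tight Y k C) : (cob Y C).Nonempty := by
  obtain ⟨x, hx⟩ := h.2.2.1
  obtain ⟨y, hy⟩ := h.2.2.2.1
  by_contra q
  refine hy ?_
  induction (SimpleGraph.reachable_iff_reflTransGen x y).1 (hY.preconnected x y) with
  | refl => exact hx
  | @tail b c _ hbc ih =>
    by_contra hc
    by_cases hb : b ∈ C
    · exact q ⟨(b, c), hbc, hb, hc⟩
    · exact hb (ih hb)

theorem ends_fin {C : Set V} (h : Tight Y k C) : {y | IsEnd Y C y}.Finite :=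
  ((h.1.image Prod.fst).union (h.1.image Prod.snd)).subset fun _ ⟨p, hp, q⟩ =>
    q.elim (fun e => .inl ⟨p, hp, e.symm⟩) fun e => .inr ⟨p, hp, e.symm⟩

theorem Ori.conn (o : Ori Y k N S) (hY : Y.Connected) {a b : V} (ha : a ∈ bl Y S)
    (hb : b ∈ bl Y S) :
    Relation.ReflTransGen (fun x y => x ∈ bl Y S ∧ y ∈ bl Y S ∧ Near Y k x y) a b := by
  set R := Relation.ReflTransGen fun x y => x ∈ bl Y S ∧ y ∈ bl Y S ∧ Near Y k x y with hR
  let G : V → Prop := fun z => ((∀ C ∈ S, z ∈ C) → R a z) ∧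
    ∀ C, Minimal (· ∈ S) C → z ∉ C → ∀ y, IsEnd Y C y → R a y
  have out : ∀ z, ¬ (∀ C ∈ S, z ∈ C) → ∃ C, Minimal (· ∈ S) C ∧ z ∉ C := fun z h => by
    push Not at h
    obtain ⟨D, hD, hz⟩ := h
    obtain ⟨C, h1, h2⟩ := o.ex hD
    exact ⟨C, h2, fun q => hz (h1 q)⟩
  have fin : ∀ z, G z → z ∈ bl Y S → R a z := fun z g hz => by
    by_cases h : ∀ C ∈ S, z ∈ C
    · exact g.1 h
    · obtain ⟨C, h1, h2⟩ := out z h
      exact g.2 C h1 h2 z (o.isEnd h1 hz h2)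
  have stp : ∀ C, Minimal (· ∈ S) C → ∀ x y, R a x → IsEnd Y C x → IsEnd Y C y → R a y :=
    fun C hC x y r hx hy => r.tail ⟨.inr ⟨C, hC, hx⟩, .inr ⟨C, hC, hy⟩,
      .inr ⟨C, o.ti C (o.sub hC.1), hx, hy⟩⟩
  refine fin b ?_ hb
  clear hb
  induction (SimpleGraph.reachable_iff_reflTransGen a b).1 (hY.preconnected a b) with
  | refl => exact ⟨fun _ => .refl, fun C hC hn y hy => stp C hC a y .refl (o.isEnd hC ha hn) hy⟩
  | @tail z z' _ hz ih =>
    refine ⟨fun h => ?_, fun C hC hn y hy => ?_⟩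
    · by_cases q : ∀ C ∈ S, z ∈ C
      · exact (ih.1 q).tail ⟨.inl q, .inl h, .inl hz⟩
      · obtain ⟨C, h1, h2⟩ := out z q
        exact ih.2 C h1 h2 z' ⟨(z', z), ⟨hz.symm, h C h1.1, h2⟩, .inl rfl⟩
    · by_cases q : z ∈ C
      · have e : IsEnd Y C z := ⟨(z, z'), ⟨hz, q, hn⟩, .inl rfl⟩
        exact stp C hC z y (fin z ih (.inr ⟨C, hC, e⟩)) e hy
      · exact ih.2 C hC q y hy

end Block

open Block

theorem block (hf : FinStmt) : BlockStmt := by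
  intro H V W _ _ _ Y k N side hY hloc hadj ti co ne inj sub one up fin eqv
  have o : ∀ s, Ori Y k N (side s) := fun s => ⟨ti, co, ne, sub s, one s, up s, fin s⟩
  refine ⟨fun s => bl Y (side s), fun s => ?_, fun y => ?_, fun h s y hy => ?_,
    fun s C hC => ?_, fun s a ha b hb => (o s).conn hY ha hb⟩
  · rcases (side s).eq_empty_or_nonempty with q | ⟨D, hD⟩
    · obtain ⟨x⟩ := hY.nonempty
      exact ⟨x, .inl (q ▸ fun _ h => h.elim)⟩
    · obtain ⟨C, -, hC⟩ := (o s).ex hD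
      obtain ⟨p, hp⟩ := cob_ne hY (ti C (sub s hC.1))
      exact ⟨p.1, .inr ⟨C, hC, p, hp, .inl rfl⟩⟩
  · have f1 : {s | ∀ C ∈ side s, y ∈ C}.Finite := Set.Subsingleton.finite fun s hs t ht =>
      inj (subset_antisymm ((o s).core (o t) hs ht) ((o t).core (o s) ht hs))
    have f2 : ∀ C, {s | Minimal (· ∈ side s) C}.Finite := fun C =>
      Set.Subsingleton.finite fun s hs t ht =>
        inj (subset_antisymm ((o s).det (o t) hs ht) ((o t).det (o s) ht hs))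
    have f3 : {C | Tight Y k C ∧ IsEnd Y C y}.Finite := by
      refine ((hloc y).biUnion fun w _ => ((hf V Y hY k).1 (y, w)).union
        ((hf V Y hY k).1 (w, y))).subset ?_
      rintro C ⟨hC, p, hp, rfl | rfl⟩
      · exact mem_biUnion (x := p.2) hp.1 (.inl ⟨hC, hp⟩)
      · exact mem_biUnion (x := p.1) hp.1.symm (.inr ⟨hC, hp⟩)
    refine (f1.union (f3.biUnion fun C _ => f2 C)).subset ?_
    rintro s (h | ⟨C, hC, e⟩)
    · exact .inl h
    · exact .inr (mem_biUnion (x := C) ⟨ti C (sub s hC.1), e⟩ hC)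
  · have bk : ∀ D ∈ side (h • s), h⁻¹ • D ∈ side s := fun D hD => by
      simpa only [inv_smul_smul] using eqv h⁻¹ _ D hD
    rcases hy with q | ⟨C, hC, p, hp, q⟩
    · exact .inl fun D hD => mem_inv_smul_set_iff.1 (q _ (bk D hD))
    · refine .inr ⟨h • C, ⟨eqv h s C hC.1, fun D hD hDC => ?_⟩, (h • p.1, h • p.2),
        ⟨hadj h _ _ hp.1, smul_mem_smul_set hp.2.1, fun t => hp.2.2 (smul_mem_smul_set_iff.1 t)⟩,
        q.imp (congrArg _) (congrArg _)⟩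
      exact smul_set_subset_iff_subset_inv_smul_set.2
        (hC.2 (bk D hD) (subset_smul_set_iff.1 hDC))
  · obtain ⟨C0, h1, h2⟩ := (o s).ex hC
    exact (ends_fin (ti C0 (sub s h2.1))).subset fun y hy =>
      (o s).isEnd h2 hy.1 fun q => hy.2 (h1 q)

end Pool.Agent.Lib.MP_435286_al.CF
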