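import Pool.Agent.Lib.MP_435286_al.CF.Defs

/-!
Finiteness of tight cuts through an edge, crossing a cut, or separating two points.
-/

namespace Pool.Agent.Lib.MP_435286_al.CF

open Relation

lemma rtg_mono {V : Type} {r s : V → V → Prop} {x y : V} (h : ReflTransGen r x y)
    (e : ∀ a b, r a b → s a b) : ReflTransGen s x y := by
  induction h with
  | refl => exact .refl
  | tail _ h ih => exact ih.tail (e _ _ h)

lemma cross_fin {V : Type} {r : V → V → Prop} {x y : V} (h : ReflTransGen r x y) :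
    ∃ P : Set (V × V), P.Finite ∧ ∀ C : Set V, x ∈ C → y ∉ C →
      ∃ p ∈ P, r p.1 p.2 ∧ p.1 ∈ C ∧ p.2 ∉ C := by
  induction h with
  | refl => exact ⟨∅, Set.finite_empty, fun C a b => absurd a b⟩
  | @tail b c _ hbc ih =>
    obtain ⟨P, hP, h⟩ := ih
    refine ⟨insert (b, c) P, hP.insert _, fun C hx hc => ?_⟩
    by_cases hb : b ∈ C
    · exact ⟨(b, c), Set.mem_insert _ _, hbc, hb, hc⟩
    · obtain ⟨p, hp, h'⟩ := h C hx hb
      exact ⟨p, Set.mem_insert_of_mem _ hp, h'⟩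

lemma tight_del {V : Type} {Y : SimpleGraph V} {k : ℕ} {C : Set V} {x y : V}
    (h : Tight Y (k + 1) C) (hp : (x, y) ∈ cob Y C) : Tight (Y.deleteEdges {s(x, y)}) k C := by
  obtain ⟨h1, h2, h3, h4, h5, h6⟩ := h
  have hx : x ∈ C := hp.2.1
  have hy : y ∉ C := hp.2.2
  have sub : cob (Y.deleteEdges {s(x, y)}) C ⊆ cob Y C \ {(x, y)} := by
    rintro ⟨a, b⟩ ⟨e, ha, hb⟩
    rw [SimpleGraph.deleteEdges_adj] at e
    refine ⟨⟨e.1, ha, hb⟩, fun c => e.2 ?_⟩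
    obtain ⟨rfl, rfl⟩ := Prod.mk.inj (Set.mem_singleton_iff.1 c)
    rfl
  refine ⟨h1.subset (sub.trans Set.sdiff_subset), ?_, h3, h4, fun a ha b hb => ?_,
    fun a ha b hb => ?_⟩
  · have a1 := Set.ncard_le_ncard sub (h1.subset Set.sdiff_subset)
    have a2 := Set.ncard_sdiff_singleton_add_one hp h1
    omega
  · refine rtg_mono (h5 a ha b hb) ?_
    rintro u v ⟨e, hu, hv⟩
    refine ⟨(SimpleGraph.deleteEdges_adj ..).2 ⟨e, fun c => ?_⟩, hu, hv⟩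
    rcases Sym2.eq_iff.1 (Set.mem_singleton_iff.1 c) with ⟨-, rfl⟩ | ⟨rfl, -⟩ <;> contradiction
  · refine rtg_mono (h6 a ha b hb) ?_
    rintro u v ⟨e, hu, hv⟩
    refine ⟨(SimpleGraph.deleteEdges_adj ..).2 ⟨e, fun c => ?_⟩, hu, hv⟩
    rcases Sym2.eq_iff.1 (Set.mem_singleton_iff.1 c) with ⟨rfl, -⟩ | ⟨-, rfl⟩ <;> contradiction

lemma fin_edge {V : Type} (k : ℕ) : ∀ (Y : SimpleGraph V) (p : V × V),
    {C | Tight Y k C ∧ p ∈ cob Y C}.Finite := by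
  induction k with
  | zero =>
    intro Y p
    refine Set.finite_empty.subset ?_
    rintro C ⟨h, hp⟩
    have := (Set.ncard_pos h.1).2 ⟨p, hp⟩
    have := h.2.1
    omega
  | succ k ih =>
    rintro Y ⟨x, y⟩
    by_cases c : ReflTransGen (Y.deleteEdges {s(x, y)}).Adj x y
    · obtain ⟨P, hP, h⟩ := cross_fin c
      refine (hP.biUnion fun p _ => ih (Y.deleteEdges {s(x, y)}) p).subset ?_
      rintro C ⟨hC, hp⟩
      obtain ⟨q, hq, h'⟩ := h C hp.2.1 hp.2.2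
      exact Set.mem_biUnion hq ⟨tight_del hC hp, h'⟩
    · refine (Set.finite_singleton {z | ReflTransGen (Y.deleteEdges {s(x, y)}).Adj x z}).subset ?_
      rintro C ⟨hC, hp⟩
      obtain ⟨-, -, -, -, h5, h6⟩ := tight_del hC hp
      ext z
      refine ⟨fun hz => rtg_mono (h5 x hp.2.1 z hz) fun _ _ e => e.1, fun hz => ?_⟩
      by_contra n
      exact c (ReflTransGen.trans hz (rtg_mono (h6 z n y hp.2.2) fun _ _ e => e.1))

lemma fin_sep {V : Type} {Y : SimpleGraph V} (hY : Y.Connected) (k : ℕ) (x y : V) :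
    {C | Tight Y k C ∧ x ∈ C ∧ y ∉ C}.Finite := by
  obtain ⟨P, hP, h⟩ := cross_fin ((SimpleGraph.reachable_iff_reflTransGen x y).1 (hY x y))
  refine (hP.biUnion fun p _ => fin_edge k Y p).subset ?_
  rintro C ⟨hC, hx, hy⟩
  obtain ⟨q, hq, h'⟩ := h C hx hy
  exact Set.mem_biUnion hq ⟨hC, h'⟩

lemma ConnIn.cob {V : Type} {Y : SimpleGraph V} {C D : Set V} (h : ConnIn Y D)
    (h1 : ¬ C ⊆ Dᶜ) (h2 : ¬ Cᶜ ⊆ Dᶜ) : ∃ p ∈ cob Y C, p.1 ∈ D := by
  obtain ⟨a, ha, ha'⟩ := Set.not_subset.1 h1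
  obtain ⟨b, hb, hb'⟩ := Set.not_subset.1 h2
  obtain ⟨P, -, hP⟩ := cross_fin (h a (not_not.1 ha') b (not_not.1 hb'))
  obtain ⟨p, -, e, h'⟩ := hP C ha hb
  exact ⟨p, ⟨e.1, h'⟩, e.2.1⟩

theorem fin : FinStmt := by
  refine fun V Y hY k => ⟨fin_edge k Y, fun C hC => ?_, fin_sep hY k⟩
  refine (hC.1.biUnion fun p _ => hC.1.biUnion fun q _ => fin_sep hY k p.1 q.1).subset ?_
  rintro D ⟨hD, hn⟩
  simp only [Nested, not_or] at hn
  obtain ⟨p, hp, h1⟩ := hD.2.2.2.2.1.cob hn.2.1 hn.2.2.2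
  obtain ⟨q, hq, h2⟩ := hD.2.2.2.2.2.cob (C := C) (by simpa using hn.1) (by simpa using hn.2.2.1)
  exact Set.mem_biUnion hp (Set.mem_biUnion hq ⟨hD, h1, h2⟩)

end Pool.Agent.Lib.MP_435286_al.CF
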