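import Pool.Agent.Lib.MP_435286_al.CF.Defs2

/-!
An invariant nested family of optimal cuts.
-/

namespace Pool.Agent.Lib.MP_435286_al.CF

open Pointwise Set

namespace Nest

variable {V : Type} {Y : SimpleGraph V} {k : ℕ} {p q p' q' : Ultrafilter V} {C D F : Set V}

theorem exmin {α : Type} (f : α → ℕ) {P : α → Prop} {a : α} (h : P a) :
    ∃ b, P b ∧ ∀ c, P c → f b ≤ f c := by
  obtain ⟨b, hb, k⟩ := (InvImage.wf f Nat.lt_wfRel.wf).has_min {a | P a} ⟨a, h⟩
  exact ⟨b, hb, fun c hc => not_lt.1 (k c hc)⟩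

theorem cob_compl (C : Set V) : cob Y Cᶜ = Prod.swap '' cob Y C := by
  ext ⟨a, b⟩
  constructor
  · rintro ⟨h1, h2, h3⟩
    exact ⟨(b, a), ⟨h1.symm, not_not.1 h3, h2⟩, rfl⟩
  · rintro ⟨⟨c, d⟩, ⟨h1, h2, h3⟩, e⟩
    obtain ⟨rfl, rfl⟩ := Prod.mk.inj e
    exact ⟨h1.symm, h3, not_not.2 h2⟩

theorem sz_compl (C : Set V) : (cob Y Cᶜ).ncard = (cob Y C).ncard := by
  rw [cob_compl, ncard_image_of_injective _ Prod.swap_injective]

theorem submod (hC : (cob Y C).Finite) (hD : (cob Y D).Finite) :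
    (cob Y (C ∩ D)).Finite ∧ (cob Y (C ∪ D)).Finite ∧
      (cob Y (C ∩ D)).ncard + (cob Y (C ∪ D)).ncard ≤ (cob Y C).ncard + (cob Y D).ncard := by
  have h1 : cob Y (C ∩ D) ∪ cob Y (C ∪ D) ⊆ cob Y C ∪ cob Y D := by
    rintro ⟨a, b⟩
    simp only [cob, mem_union, mem_inter_iff, mem_ofPred_eq]
    tauto
  have h2 : cob Y (C ∩ D) ∩ cob Y (C ∪ D) ⊆ cob Y C ∩ cob Y D := by
    rintro ⟨a, b⟩
    simp only [cob, mem_union, mem_inter_iff, mem_ofPred_eq]
    tauto
  have f := (hC.union hD).subset h1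
  have f1 := f.subset subset_union_left
  have f2 := f.subset subset_union_right
  refine ⟨f1, f2, ?_⟩
  rw [← ncard_union_add_ncard_inter _ _ f1 f2, ← ncard_union_add_ncard_inter _ _ hC hD]
  exact add_le_add (ncard_le_ncard h1 (hC.union hD)) (ncard_le_ncard h2 (hC.inter_of_left _))

/-- A cut of finite order that separates two ultrafilters. -/
def Sep (Y : SimpleGraph V) (p q : Ultrafilter V) (C : Set V) : Prop :=
  (cob Y C).Finite ∧ C ∈ p ∧ Cᶜ ∈ q

/-- A minimal cut. -/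
def Min (Y : SimpleGraph V) (k : ℕ) (p q : Ultrafilter V) (C : Set V) : Prop :=
  Sep Y p q C ∧ (cob Y C).ncard ≤ k ∧ ∀ D, Sep Y p q D → (cob Y C).ncard ≤ (cob Y D).ncard

/-- The number of tight cuts that cross `C`. -/
noncomputable def cr (Y : SimpleGraph V) (k : ℕ) (C : Set V) : ℕ :=
  {D | Tight Y k D ∧ ¬ Nested C D}.ncard

/-- An optimal cut. -/
def Opt (Y : SimpleGraph V) (k : ℕ) (p q : Ultrafilter V) (C : Set V) : Prop :=
  Min Y k p q C ∧ ∀ D, Min Y k p q D → cr Y k C ≤ cr Y k D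

theorem nl : Nested Cᶜ D ↔ Nested C D := by
  simp only [Nested, compl_compl]
  tauto

theorem nr : Nested C Dᶜ ↔ Nested C D := by
  simp only [Nested, compl_compl]
  tauto

theorem cr_compl (C : Set V) : cr Y k Cᶜ = cr Y k C := by simp only [cr, nl]

theorem Sep.compl (h : Sep Y p q C) : Sep Y q p Cᶜ :=
  ⟨by rw [cob_compl]; exact h.1.image _, h.2.2, by rw [compl_compl]; exact h.2.1⟩

theorem Min.compl (h : Min Y k p q C) : Min Y k q p Cᶜ :=
  ⟨h.1.compl, by rw [sz_compl]; exact h.2.1, fun D hD => by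
    rw [sz_compl, ← sz_compl D]
    exact h.2.2 _ hD.compl⟩

theorem Opt.compl (h : Opt Y k p q C) : Opt Y k q p Cᶜ :=
  ⟨h.1.compl, fun D hD => by
    rw [cr_compl, ← cr_compl D]
    exact h.2 _ hD.compl⟩

theorem reach (hY : Y.Connected) {x y : V} (hx : x ∈ C) (hy : y ∉ C) : ∃ e ∈ cob Y C,
    Relation.ReflTransGen (fun a b => Y.Adj a b ∧ a ∈ C ∧ b ∈ C) x e.1 := by
  obtain ⟨w⟩ := hY.preconnected x y
  induction w with
  | nil => exact absurd hx hy
  | @cons a b c h w ih =>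
    by_cases hb : b ∈ C
    · obtain ⟨e, he, k⟩ := ih hb hy
      exact ⟨e, he, .head ⟨h, hx, hb⟩ k⟩
    · exact ⟨(a, b), ⟨h, hx, hb⟩, .refl⟩

theorem rsymm {x y : V} (h : Relation.ReflTransGen (fun a b => Y.Adj a b ∧ a ∈ C ∧ b ∈ C) x y) :
    Relation.ReflTransGen (fun a b => Y.Adj a b ∧ a ∈ C ∧ b ∈ C) y x := by
  induction h with
  | refl => exact .refl
  | tail _ k ih => exact .head ⟨k.1.symm, k.2.2, k.2.1⟩ ih

theorem Min.conn (hY : Y.Connected) (h : Min Y k p q C) : ConnIn Y C := by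
  obtain ⟨y, hy⟩ := Ultrafilter.nonempty_of_mem h.1.2.2
  let K : V × V → Set V := fun e =>
    {x | x ∈ C ∧ Relation.ReflTransGen (fun a b => Y.Adj a b ∧ a ∈ C ∧ b ∈ C) x e.1}
  have h1 : ⋃ e ∈ cob Y C, K e ∈ p := Filter.mem_of_superset h.1.2.1 fun x hx => by
    obtain ⟨e, he, k⟩ := reach hY hx hy
    exact mem_biUnion he ⟨hx, k⟩
  obtain ⟨e, -, he⟩ := (Ultrafilter.finite_biUnion_mem_iff h.1.1).1 h1
  have h2 : cob Y (K e) ⊆ cob Y C := fun d hd => ⟨hd.1, hd.2.1.1, fun k =>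
    hd.2.2 ⟨k, .head ⟨hd.1.symm, k, hd.2.1.1⟩ hd.2.1.2⟩⟩
  have h3 : cob Y (K e) = cob Y C := eq_of_subset_of_ncard_le h2 (h.2.2 _ ⟨h.1.1.subset h2, he,
    Filter.mem_of_superset h.1.2.2 fun x hx k => hx k.1⟩) h.1.1
  have h4 : ∀ x ∈ C, Relation.ReflTransGen (fun a b => Y.Adj a b ∧ a ∈ C ∧ b ∈ C) x e.1 :=
    fun x hx => by
      obtain ⟨d, hd, k⟩ := reach hY hx hy
      rw [← h3] at hd
      exact k.trans hd.2.1.2
  exact fun x hx z hz => (h4 x hx).trans (rsymm (h4 z hz))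

theorem Min.tight (hY : Y.Connected) (h : Min Y k p q C) : Tight Y k C :=
  ⟨h.1.1, h.2.1, Ultrafilter.nonempty_of_mem h.1.2.1, Ultrafilter.nonempty_of_mem h.1.2.2,
    h.conn hY, h.compl.conn hY⟩

theorem both (n : ¬Nested C D) (h1 : Nested C F) (h2 : Nested D F) :
    Nested (C ∩ D) F ∧ Nested (C ∪ D) F := by
  simp only [Nested, not_or, not_subset] at n
  obtain ⟨⟨a, a1, a2⟩, ⟨b, b1, b2⟩, ⟨c, c1, c2⟩, d, d1, d2⟩ := n
  simp only [Nested, subset_def, mem_inter_iff, mem_union, mem_compl_iff] at *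
  grind

theorem one (h : Nested C F) : Nested (C ∩ D) F ∨ Nested (C ∪ D) F := by
  simp only [Nested, subset_def, mem_inter_iff, mem_union, mem_compl_iff] at *
  grind

theorem cr_lt (hD : Tight Y k D) (n : ¬Nested C D)
    (f1 : {F | Tight Y k F ∧ ¬ Nested C F}.Finite) (f2 : {F | Tight Y k F ∧ ¬ Nested D F}.Finite) :
    cr Y k (C ∩ D) + cr Y k (C ∪ D) < cr Y k C + cr Y k D := by
  have h1 : {F | Tight Y k F ∧ ¬ Nested (C ∩ D) F} ∪ {F | Tight Y k F ∧ ¬ Nested (C ∪ D) F} ⊆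
      {F | Tight Y k F ∧ ¬ Nested C F} ∪ {F | Tight Y k F ∧ ¬ Nested D F} := fun F hF => by
    have := both (F := F) n
    simp only [mem_union, mem_ofPred_eq] at hF ⊢
    tauto
  have h2 : {F | Tight Y k F ∧ ¬ Nested (C ∩ D) F} ∩ {F | Tight Y k F ∧ ¬ Nested (C ∪ D) F} ⊆
      {F | Tight Y k F ∧ ¬ Nested C F} ∩ {F | Tight Y k F ∧ ¬ Nested D F} := fun F hF => by
    have a := one (C := C) (D := D) (F := F)
    have b := one (C := D) (D := C) (F := F)
    rw [inter_comm, union_comm] at b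
    simp only [mem_inter_iff, mem_ofPred_eq] at hF ⊢
    tauto
  have f := (f1.union f2).subset h1
  unfold cr
  rw [← ncard_union_add_ncard_inter _ _ (f.subset subset_union_left) (f.subset subset_union_right),
    ← ncard_union_add_ncard_inter _ _ f1 f2]
  refine add_lt_add_of_lt_of_le (ncard_lt_ncard ((ssubset_iff_of_subset h1).2
    ⟨D, Or.inl ⟨hD, n⟩, ?_⟩) (f1.union f2)) (ncard_le_ncard h2 (f1.inter_of_left _))
  rintro (k | k)
  · exact k.2 (Or.inl inter_subset_right)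
  · exact k.2 (Or.inr (Or.inr (Or.inr (compl_subset_compl.2 subset_union_right))))

theorem core (hf : FinStmt) (hY : Y.Connected) (hC : Tight Y k C) (hD : Tight Y k D)
    (n : ¬Nested C D) {X X' : Set V} (h : Opt Y k p q X) (h' : Opt Y k p' q' X')
    (a1 : C ∩ D ∈ p) (a2 : (C ∩ D)ᶜ ∈ q) (a3 : C ∪ D ∈ p') (a4 : (C ∪ D)ᶜ ∈ q')
    (b1 : (cob Y C).ncard + (cob Y D).ncard ≤ (cob Y X).ncard + (cob Y X').ncard)
    (b2 : cr Y k C + cr Y k D ≤ cr Y k X + cr Y k X') : False := by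
  obtain ⟨s1, s2, s3⟩ := submod hC.1 hD.1
  have c1 := h.1.2.2 _ ⟨s1, a1, a2⟩
  have c2 := h'.1.2.2 _ ⟨s2, a3, a4⟩
  have c3 := h.1.2.1
  have c4 := h'.1.2.1
  have d1 := h.2 _ ⟨⟨s1, a1, a2⟩, by omega, fun E hE => by
    have := h.1.2.2 E hE
    omega⟩
  have d2 := h'.2 _ ⟨⟨s2, a3, a4⟩, by omega, fun E hE => by
    have := h'.1.2.2 E hE
    omega⟩
  have := cr_lt hD n ((hf V Y hY k).2.1 C hC) ((hf V Y hY k).2.1 D hD)
  omega

theorem o1 (hf : FinStmt) (hY : Y.Connected) (h : Opt Y k p q C) (h' : Opt Y k p' q' D)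
    (n : ¬Nested C D) (a : D ∈ p) (b : Cᶜ ∈ q') : False :=
  core hf hY (h.1.tight hY) (h'.1.tight hY) n h h' (Filter.inter_mem h.1.1.2.1 a)
    (Filter.mem_of_superset h.1.1.2.2 (compl_subset_compl.2 inter_subset_left))
    (Filter.mem_of_superset h'.1.1.2.1 subset_union_right)
    (by rw [compl_union]; exact Filter.inter_mem b h'.1.1.2.2) le_rfl le_rfl

theorem o2 (hf : FinStmt) (hY : Y.Connected) (h : Opt Y k p q C) (h' : Opt Y k p' q' D)
    (n : ¬Nested C D) (a : D ∈ p) (b : Dᶜ ∈ q) (c : Cᶜ ∈ p') (d : C ∈ q') : False := by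
  have s : Sep Y p' q' Cᶜ := ⟨h.1.1.compl.1, c, by rwa [compl_compl]⟩
  have e1 := h.1.2.2 D ⟨h'.1.1.1, a, b⟩
  have e2 := h'.1.2.2 _ s
  have e3 := h'.2 _ ⟨s, h.1.compl.2.1, fun E hE => by
    rw [sz_compl]
    exact e1.trans (h'.1.2.2 E hE)⟩
  rw [sz_compl] at e2
  rw [cr_compl] at e3
  exact core hf hY (h.1.tight hY) (h'.1.tight hY) n h h (Filter.inter_mem h.1.1.2.1 a)
    (Filter.mem_of_superset h.1.1.2.2 (compl_subset_compl.2 inter_subset_left))
    (Filter.mem_of_superset h.1.1.2.1 subset_union_left)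
    (by rw [compl_union]; exact Filter.inter_mem h.1.1.2.2 b) (by omega) (by omega)

theorem nested (hf : FinStmt) (hY : Y.Connected) (h : Opt Y k p q C) (h' : Opt Y k p' q' D) :
    Nested C D := by
  by_contra n
  have n1 : ¬Nested Cᶜ D := fun k => n (nl.1 k)
  have n2 : ¬Nested C Dᶜ := fun k => n (nr.1 k)
  have n3 : ¬Nested Cᶜ Dᶜ := fun k => n1 (nr.1 k)
  rcases p.mem_or_compl_mem D with a | a
  · rcases q'.mem_or_compl_mem C with d | d
    · rcases q.mem_or_compl_mem D with b | b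
      · exact o1 hf hY h.compl h' n1 b (by rwa [compl_compl])
      · rcases p'.mem_or_compl_mem C with c | c
        · exact o1 hf hY h.compl h'.compl n3 b (by rwa [compl_compl])
        · exact o2 hf hY h h' n a b c d
    · exact o1 hf hY h h' n a d
  · rcases p'.mem_or_compl_mem C with c | c
    · rcases q.mem_or_compl_mem D with b | b
      · rcases q'.mem_or_compl_mem C with d | d
        · exact o1 hf hY h.compl h' n1 b (by rwa [compl_compl])
        · exact o2 hf hY h h'.compl n2 a (by rwa [compl_compl]) d c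
      · exact o1 hf hY h.compl h'.compl n3 b (by rwa [compl_compl])
    · exact o1 hf hY h h'.compl n2 a c

section act

variable {H : Type} [Group H] [MulAction H V]
  (hA : ∀ (h : H) (v w : V), Y.Adj v w → Y.Adj (h • v) (h • w))
include hA

theorem cob_smul (h : H) (C : Set V) : cob Y (h • C) = h • cob Y C := by
  ext ⟨a, b⟩
  simp only [cob, mem_smul_set_iff_inv_smul_mem, mem_ofPred_eq, Prod.smul_mk]
  exact and_congr_left fun _ => ⟨hA _ _ _, fun k => by simpa using hA h _ _ k⟩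

theorem conn_smul (h : H) (hC : ConnIn Y C) : ConnIn Y (h • C) := by
  rintro _ ⟨x, hx, rfl⟩ _ ⟨y, hy, rfl⟩
  exact (hC x hx y hy).lift (h • ·) fun a b k =>
    ⟨hA h _ _ k.1, smul_mem_smul_set k.2.1, smul_mem_smul_set k.2.2⟩

theorem tight_smul (h : H) (hC : Tight Y k C) : Tight Y k (h • C) := by
  obtain ⟨a, b, c, d, e, f⟩ := hC
  refine ⟨?_, ?_, c.smul_set, ?_, conn_smul hA h e, ?_⟩
  · rw [cob_smul hA]
    exact a.smul_set
  · rwa [cob_smul hA, ncard_smul_set]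
  · rw [← smul_set_compl]
    exact d.smul_set
  · rw [← smul_set_compl]
    exact conn_smul hA h f

theorem cr_smul (h : H) (C : Set V) : cr Y k (h • C) = cr Y k C := by
  have e : {D | Tight Y k D ∧ ¬ Nested (h • C) D} = h • {D | Tight Y k D ∧ ¬ Nested C D} := by
    ext D
    obtain ⟨D, rfl⟩ := MulAction.surjective h D
    simp only [smul_mem_smul_set_iff, mem_ofPred_eq, Nested, ← smul_set_compl,
      smul_set_subset_smul_set_iff]
    exact and_congr_left fun _ => ⟨fun k => by simpa using tight_smul hA h⁻¹ k, tight_smul hA h⟩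
  rw [cr, e, ncard_smul_set, cr]

theorem sep_smul (h : H) : Sep Y (p.map (h • ·)) (q.map (h • ·)) (h • C) ↔ Sep Y p q C := by
  simp only [Sep, cob_smul hA, finite_smul_set, Ultrafilter.mem_map, ← smul_set_compl,
    preimage_smul, inv_smul_smul]

theorem min_smul (h : H) : Min Y k (p.map (h • ·)) (q.map (h • ·)) (h • C) ↔ Min Y k p q C := by
  rw [Min, (MulAction.surjective h).forall]
  simp only [sep_smul hA, cob_smul hA, ncard_smul_set, Min]

theorem opt_smul (h : H) : Opt Y k (p.map (h • ·)) (q.map (h • ·)) (h • C) ↔ Opt Y k p q C := by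
  rw [Opt, (MulAction.surjective h).forall]
  simp only [min_smul hA, cr_smul hA, Opt]

end act

end Nest

open Nest

theorem nest (hf : FinStmt) : NestStmt := by
  intro H V _ _ Y hY hA k
  refine ⟨{C | ∃ p q, Opt Y k p q C}, fun C ⟨_, _, h⟩ => h.1.tight hY,
    fun C ⟨p, q, h⟩ => ⟨q, p, h.compl⟩, fun C ⟨_, _, h⟩ D ⟨_, _, h'⟩ => nested hf hY h h',
    fun h C ⟨_, _, hC⟩ => ⟨_, _, (opt_smul hA h).2 hC⟩, fun p q D f1 f2 a b => ?_⟩
  obtain ⟨E, e1, e2⟩ := exmin (fun C => (cob Y C).ncard) (P := Sep Y p q) ⟨f1, a, b⟩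
  obtain ⟨C, c1, c2⟩ := exmin (cr Y k) (P := Min Y k p q) ⟨e1, (e2 D ⟨f1, a, b⟩).trans f2, e2⟩
  exact ⟨C, ⟨p, q, c1, c2⟩, c1.1.2⟩

end Pool.Agent.Lib.MP_435286_al.CF
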