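import Pool.Agent.Lib.MP_435286_al.CF.Defs

/-!
The tree of consistent orientations of a nested family.
-/

namespace Pool.Agent.Lib.MP_435286_al.CF

open Pointwise

namespace Ori

variable {V : Type} {N : Set (Set V)}

/-- Consistent orientations. -/
structure Ok (N s : Set (Set V)) : Prop where
  sub : s ⊆ N
  xor : ∀ C ∈ N, C ∈ s ↔ Cᶜ ∉ s
  up : ∀ C ∈ s, ∀ D ∈ N, C ⊆ D → D ∈ s
  fin : ∀ x, {C | C ∈ s ∧ x ∉ C}.Finite

/-- `C` is the only element of `s` that is not in `t`. -/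
def On (s t : Set (Set V)) (C : Set V) : Prop := C ∈ s ∧ C ∉ t ∧ ∀ D ∈ s, D ≠ C → D ∈ t

/-- `C` is minimal in `s`. -/
def Mn (s : Set (Set V)) (C : Set V) : Prop := C ∈ s ∧ ∀ D ∈ s, D ⊆ C → D = C

variable {s t : Set (Set V)} {C : Set V}

theorem Ok.cp (h : Ok N s) (hC : C ∈ N) (n : C ∉ s) : Cᶜ ∈ s :=
  by_contra fun e => n ((h.xor C hC).2 e)

theorem Ok.not (h : Ok N s) (hC : C ∈ s) : Cᶜ ∉ s := (h.xor C (h.sub hC)).1 hC

theorem Ok.eq (h : Ok N s) (h' : Ok N t) (e : s ⊆ t) : s = t :=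
  e.antisymm fun _ hC => by_contra fun n => h'.not hC (e (h.cp (h'.sub hC) n))

theorem On.symm (h : Ok N s) (h' : Ok N t) (o : On s t C) : On t s Cᶜ :=
  ⟨h'.cp (h.sub o.1) o.2.1, h.not o.1, fun D hD n => by_contra fun e =>
    h'.not hD (o.2.2 _ (h.cp (h'.sub hD) e) fun a => n (by rw [← a, compl_compl]))⟩

theorem On.mn (h : Ok N s) (h' : Ok N t) (o : On s t C) : Mn s C :=
  ⟨o.1, fun D hD le => by_contra fun n => o.2.1 (h'.up D (o.2.2 D hD n) C (h.sub o.1) le)⟩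

theorem Mn.eq (hn : ∀ C ∈ N, ∀ D ∈ N, Nested C D) (hc : ∀ C ∈ N, Cᶜ ∈ N) (h : Ok N s)
    (h' : Ok N t) (m : Mn s C) (m' : Mn t C) : s = t := by
  refine h.eq h' fun D hD => ?_
  rcases hn C (h.sub m.1) D (h.sub hD) with e | e | e | e
  · exact h'.up C m'.1 D (h.sub hD) e
  · exact (h.not hD (h.up C m.1 _ (hc D (h.sub hD)) e)).elim
  · by_contra n
    exact h.not hD (m'.2 _ (h'.cp (h.sub hD) n) (Set.compl_subset_comm.1 e) ▸ m.1)
  · exact m.2 D hD (Set.compl_subset_compl.1 e) ▸ m'.1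

theorem Ok.dif (h : Ok N s) (h' : Ok N t) (x : V) : (s \ t).Finite :=
  ((h.fin x).union ((h'.fin x).image compl)).subset fun C hC => by
    by_cases e : x ∈ C
    · exact .inr ⟨Cᶜ, ⟨h'.cp (h.sub hC.1) hC.2, fun a => a e⟩, compl_compl C⟩
    · exact .inl ⟨hC.1, e⟩

theorem Mn.flip (h0 : ∀ C ∈ N, C.Nonempty) (hc : ∀ C ∈ N, Cᶜ ∈ N) (h : Ok N s) (m : Mn s C) :
    Ok N (insert Cᶜ (s \ {C})) ∧ On s (insert Cᶜ (s \ {C})) C := by
  have cN := h.sub m.1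
  have n0 : ¬Cᶜ ⊆ C := fun e => (h0 _ (hc C cN)).elim fun x hx => hx (e hx)
  have n1 : C ∉ insert Cᶜ (s \ {C}) := by
    rintro (e | e)
    exacts [n0 e.ge, e.2 rfl]
  refine ⟨⟨?_, fun D hD => ?_, ?_, fun x => ((h.fin x).insert Cᶜ).subset ?_⟩, m.1, n1,
    fun D hD n => .inr ⟨hD, n⟩⟩
  · rintro D (rfl | hD)
    exacts [hc C cN, h.sub hD.1]
  · by_cases e : D = C
    · exact iff_of_false (e ▸ n1) fun a => a (.inl (by rw [e]))
    by_cases e' : D = Cᶜ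
    · exact iff_of_true (.inl e') (by rwa [e', compl_compl])
    have e2 : Dᶜ ≠ C := fun a => e' (by rw [← a, compl_compl])
    simpa [e, e', e2] using h.xor D hD
  · rintro D (rfl | hD) E hE le
    · by_cases e : E = Cᶜ
      · exact .inl e
      · refine .inr ⟨by_contra fun n => e ?_, fun a : E = C => n0 (a ▸ le)⟩
        rw [← m.2 _ (h.cp hE n) (Set.compl_subset_comm.1 le), compl_compl]
    · exact .inr ⟨h.up D hD.1 E hE le, fun a : E = C => hD.2 (m.2 D hD.1 (a ▸ le))⟩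
  · rintro D ⟨rfl | hD, hx⟩
    exacts [.inl rfl, .inr ⟨hD.1, hx⟩]

/-- The graph of orientations. -/
def gr (N : Set (Set V)) : SimpleGraph {s // Ok N s} where
  Adj s t := ∃ C, On s.1 t.1 C
  symm := ⟨fun s t ⟨_, o⟩ => ⟨_, o.symm s.2 t.2⟩⟩
  loopless := ⟨fun _ ⟨_, o⟩ => o.2.1 o.1⟩

theorem reach (h0 : ∀ C ∈ N, C.Nonempty) (hc : ∀ C ∈ N, Cᶜ ∈ N) (x : V) (t : {s // Ok N s})
    (n : ℕ) : ∀ s : {s // Ok N s}, (s.1 \ t.1).ncard = n → (gr N).Reachable s t := by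
  induction n using Nat.strong_induction_on with
  | _ n ih =>
  intro s hs
  have f := s.2.dif t.2 x
  rcases (s.1 \ t.1).eq_empty_or_nonempty with e | e
  · rw [Subtype.ext (s.2.eq t.2 (Set.sdiff_eq_empty.1 e))]
  obtain ⟨C, hC⟩ := f.exists_minimal e
  have m : Mn s.1 C := ⟨hC.1.1, fun D hD le => le.antisymm (hC.2 ⟨hD, fun a =>
    hC.1.2 (t.2.up D a C (s.2.sub hC.1.1) le)⟩ le)⟩
  obtain ⟨a, b⟩ := m.flip h0 hc s.2
  refine (show (gr N).Adj s ⟨_, a⟩ from ⟨C, b⟩).reachable.trans (ih _ ?_ _ rfl)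
  rw [← hs]
  refine Set.ncard_lt_ncard ⟨?_, fun le => b.2.1 (le hC.1).1⟩ f
  rintro D ⟨rfl | hD, n⟩
  exacts [(n (t.2.cp (s.2.sub m.1) hC.1.2)).elim, ⟨hD.1, n⟩]

theorem acyc (hn : ∀ C ∈ N, ∀ D ∈ N, Nested C D) (hc : ∀ C ∈ N, Cᶜ ∈ N) : (gr N).IsAcyclic := by
  refine SimpleGraph.isAcyclic_iff_forall_adj_isBridge.2 fun s t ⟨C, o⟩ => ?_
  refine SimpleGraph.isBridge_iff.2 fun r => o.2.1 ?_
  rw [SimpleGraph.reachable_iff_reflTransGen] at r
  have key : ∀ b, Relation.ReflTransGen ((gr N).deleteEdges {s(s, t)}).Adj s b → C ∈ b.1 := by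
    intro b r
    induction r with
    | refl => exact o.1
    | @tail a b _ e ih =>
      rw [SimpleGraph.deleteEdges_adj] at e
      obtain ⟨⟨D, p⟩, e⟩ := e
      by_contra n
      obtain rfl : C = D := by_contra fun k => n (p.2.2 C ih k)
      rw [Subtype.ext (Mn.eq hn hc a.2 s.2 (p.mn a.2 b.2) (o.mn s.2 t.2)),
        Subtype.ext (Mn.eq hn hc b.2 t.2 ((p.symm a.2 b.2).mn b.2 a.2)
          ((o.symm s.2 t.2).mn t.2 s.2))] at e
      exact e rfl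
  exact key t r

variable {H : Type} [Group H] [MulAction H V]

theorem Ok.smul (hH : ∀ (h : H), ∀ C ∈ N, h • C ∈ N) (k : Ok N s) (h : H) : Ok N (h • s) where
  sub := by
    rintro _ ⟨C, hC, rfl⟩
    exact hH h C (k.sub hC)
  xor C hC := by
    rw [Set.mem_smul_set_iff_inv_smul_mem, Set.mem_smul_set_iff_inv_smul_mem, Set.smul_set_compl]
    exact k.xor _ (hH _ C hC)
  up C hC D hD le := by
    rw [Set.mem_smul_set_iff_inv_smul_mem] at hC ⊢
    exact k.up _ hC _ (hH _ D hD) (Set.smul_set_mono le)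
  fin x := ((k.fin (h⁻¹ • x)).image (h • ·)).subset (by
    rintro _ ⟨⟨C, hC, rfl⟩, hx⟩
    exact ⟨C, ⟨hC, fun a => hx (Set.mem_smul_set_iff_inv_smul_mem.2 a)⟩, rfl⟩)

end Ori

open Ori in
theorem ori : OriStmt := by
  intro H V _ _ ⟨x₀⟩ N h0 hc hn hH hf
  let A : MulAction H {s // Ok N s} :=
    { smul := fun h s => ⟨h • s.1, s.2.smul hH h⟩
      one_smul := fun s => Subtype.ext (one_smul H s.1)
      mul_smul := fun a b s => Subtype.ext (mul_smul a b s.1) }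
  let pr : V → {s // Ok N s} := fun x => ⟨{C | C ∈ N ∧ x ∈ C}, fun _ h => h.1,
    fun C hC => by simp [hC, hc C hC], fun C h D hD le => ⟨hD, le h.2⟩,
    fun y => (hf x y).subset fun C h => ⟨h.1.1, h.1.2, h.2⟩⟩
  have : Nonempty {s // Ok N s} := ⟨pr x₀⟩
  refine ⟨_, A, gr N, Subtype.val, pr, ⟨⟨fun s t => reach h0 hc x₀ t _ s rfl⟩, acyc hn hc⟩,
    fun h s t ⟨C, o⟩ => ⟨h • C, ⟨C, o.1, rfl⟩, fun a => o.2.1 (Set.smul_mem_smul_set_iff.1 a), ?_⟩,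
    fun h x => Subtype.ext (Set.ext fun C => ?_), Subtype.val_injective, fun s => s.2.sub,
    fun s => s.2.xor, fun s => s.2.up, fun s => s.2.fin, fun h s C hC => ⟨C, hC, rfl⟩,
    fun _ _ => Iff.rfl⟩
  · rintro _ ⟨D, hD, rfl⟩ n
    exact ⟨D, o.2.2 D hD fun a => n (by rw [a]), rfl⟩
  · refine Iff.trans ?_ Set.mem_smul_set_iff_inv_smul_mem.symm
    refine and_congr ⟨hH _ C, fun a => by simpa using hH h _ a⟩ ?_
    rw [Set.mem_smul_set_iff_inv_smul_mem, inv_inv]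

end Pool.Agent.Lib.MP_435286_al.CF
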