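import Pool.Agent.Lib.MP_435286_al.CF.Defs2

/-!
The structure tree of a coarsely connected tree-like space: blocks are finite.
-/

namespace Pool.Agent.Lib.MP_435286_al.CF

open Pointwise

theorem rtg_chain {V : Type} {r : V → V → Prop} {a b : V} (h : Relation.ReflTransGen r a b) :
    ∃ (n : ℕ) (x : ℕ → V), x 0 = a ∧ x n = b ∧ ∀ i < n, r (x i) (x (i + 1)) := by
  induction h with
  | refl => exact ⟨0, fun _ => a, rfl, rfl, fun i hi => by omega⟩
  | @tail b c _ hs ih =>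
    obtain ⟨n, x, h0, hn, hx⟩ := ih
    refine ⟨n + 1, fun i => if i ≤ n then x i else c, by simpa using h0, by simp, ?_⟩
    intro i hi
    by_cases h1 : i < n
    · simp only [show i ≤ n by omega, show i + 1 ≤ n by omega, if_true]
      exact hx i h1
    · obtain rfl : i = n := by omega
      simpa [hn] using hs

theorem centre {V : Type} {d : V → V → ℕ} {K : ℕ} (htri : ∀ a b c, d a c ≤ d a b + d b c)
    (_hsym : ∀ a b, d a b = d b a) (hch : Chain d K) {r : V → V → Prop} {t : ℕ}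
    (hr : ∀ x y, r x y → d x y ≤ t) {a b : V} (h : Relation.ReflTransGen r a b) {L : ℕ}
    (ha : d a a ≤ L) (hb : L + d b b < 2 * d a b) :
    ∃ m, (∃ y, r y m) ∧ L + d m b < d a m + d a b ∧ 2 * d a m ≤ L + K + 2 * t := by
  classical
  obtain ⟨n, x, h0, hn, hx⟩ := rtg_chain h
  let P : ℕ → Prop := fun i => d a (x i) + d a b ≤ L + d (x i) b
  have p0 : P 0 := by simp only [P, h0]; omega
  have pn : ¬ P n := by simp only [P, hn]; omega
  have hi : P (Nat.findGreatest P n) := Nat.findGreatest_spec (Nat.zero_le n) p0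
  have hle := Nat.findGreatest_le (P := P) n
  have hgt : ∀ j, Nat.findGreatest P n < j → j ≤ n → ¬ P j := fun j h1 h2 =>
    Nat.findGreatest_is_greatest h1 h2
  generalize Nat.findGreatest P n = i0 at hi hle hgt
  have hlt : i0 < n := by
    rcases Nat.lt_or_eq_of_le hle with h1 | h1
    · exact h1
    · exact absurd (h1 ▸ hi) pn
  obtain ⟨j, hj, hc⟩ := hch a (fun j => x (i0 + j)) (n - i0 - 1)
  rw [show i0 + (n - i0 - 1 + 1) = n by omega, hn, add_zero, ← add_assoc] at hc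
  have h1 := hx (i0 + j) (by omega)
  have h2 := hr _ _ h1
  have h3 := hgt (i0 + j + 1) (by omega) (by omega)
  have h4 := htri a (x (i0 + j)) (x (i0 + j + 1))
  simp only [P] at hi h3
  exact ⟨x (i0 + j + 1), ⟨_, h1⟩, by omega, by omega⟩

theorem centre_close {V : Type} {d : V → V → ℕ} {K : ℕ} (hsym : ∀ a b, d a b = d b a)
    (hch : Chain d K) {a b m z : V} {L s R : ℕ}
    (h1 : L + d m b < d a m + d a b) (h2 : 2 * d a m ≤ L + K + 2 * s)
    (h3 : L + d z b < d a z + d a b) (h4 : 2 * d a z ≤ L + K + 2 * R) :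
    d z m ≤ 2 * K + s + R := by
  obtain ⟨i, hi, hc⟩ := hch a (fun i => if i = 0 then m else if i = 1 then b else z) 1
  have s1 := hsym z m
  have s2 := hsym z b
  rcases (by omega : i = 0 ∨ i = 1) with rfl | rfl
  · simp at hc; omega
  · simp at hc; omega

section inv
variable {H V : Type} [Group H] [MulAction H V] {Y : SimpleGraph V}

theorem cob_smul (hY : ∀ (h : H) (v w : V), Y.Adj v w → Y.Adj (h • v) (h • w)) (h : H)
    (C : Set V) : cob Y (h • C) = (fun p : V × V => (h • p.1, h • p.2)) '' cob Y C := by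
  ext ⟨u, v⟩
  simp only [cob, Set.mem_ofPred_eq, Set.mem_smul_set_iff_inv_smul_mem, Set.mem_image,
    Prod.mk.injEq, Prod.exists]
  constructor
  · rintro ⟨h1, h2, h3⟩
    exact ⟨h⁻¹ • u, h⁻¹ • v, ⟨hY _ _ _ h1, h2, h3⟩, by simp, by simp⟩
  · rintro ⟨a, b, ⟨h1, h2, h3⟩, rfl, rfl⟩
    exact ⟨hY _ _ _ h1, by simpa using h2, by simpa using h3⟩

theorem connIn_smul (hY : ∀ (h : H) (v w : V), Y.Adj v w → Y.Adj (h • v) (h • w)) (h : H)
    {C : Set V} (hC : ConnIn Y C) : ConnIn Y (h • C) := by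
  rintro _ ⟨x, hx, rfl⟩ _ ⟨y, hy, rfl⟩
  have := hC x hx y hy
  clear hy
  induction this with
  | refl => exact Relation.ReflTransGen.refl
  | tail _ hs ih =>
    exact ih.tail ⟨hY _ _ _ hs.1, Set.smul_mem_smul_set hs.2.1, Set.smul_mem_smul_set hs.2.2⟩

theorem tight_smul (hY : ∀ (h : H) (v w : V), Y.Adj v w → Y.Adj (h • v) (h • w)) (h : H)
    {k : ℕ} {C : Set V} (hC : Tight Y k C) : Tight Y k (h • C) := by
  obtain ⟨h1, h2, h3, h4, h5, h6⟩ := hC
  refine ⟨?_, ?_, h3.smul_set, ?_, connIn_smul hY h h5, ?_⟩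
  · rw [cob_smul hY]; exact h1.image _
  · rw [cob_smul hY]; exact (Set.ncard_image_le h1).trans h2
  · rw [← Set.smul_set_compl]; exact h4.smul_set
  · rw [← Set.smul_set_compl]; exact connIn_smul hY h h6

theorem near_smul (hY : ∀ (h : H) (v w : V), Y.Adj v w → Y.Adj (h • v) (h • w)) (h : H)
    {k : ℕ} {x y : V} (hxy : Near Y k x y) : Near Y k (h • x) (h • y) := by
  have he : ∀ C z, IsEnd Y C z → IsEnd Y (h • C) (h • z) := by
    rintro C z ⟨p, hp, hz⟩
    refine ⟨(h • p.1, h • p.2), by rw [cob_smul hY]; exact ⟨p, hp, rfl⟩, ?_⟩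
    rcases hz with rfl | rfl
    · exact Or.inl rfl
    · exact Or.inr rfl
  rcases hxy with h1 | ⟨C, h1, h2, h3⟩
  · exact Or.inl (hY _ _ _ h1)
  · exact Or.inr ⟨h • C, tight_smul hY h h1, he _ _ h2, he _ _ h3⟩

theorem near_finite (hf : FinStmt) (hc : Y.Connected) (hl : ∀ v, (Y.neighborSet v).Finite)
    (k : ℕ) (x : V) : {y | Near Y k x y}.Finite := by
  have h1 : {p : V × V | Y.Adj p.1 p.2 ∧ (x = p.1 ∨ x = p.2)}.Finite := by
    refine (((hl x).image fun y => (x, y)).union ((hl x).image fun y => (y, x))).subset ?_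
    rintro ⟨u, v⟩ ⟨h1, rfl | rfl⟩
    · exact Or.inl ⟨v, h1, rfl⟩
    · exact Or.inr ⟨u, h1.symm, rfl⟩
  have h2 : {C | Tight Y k C ∧ IsEnd Y C x}.Finite := by
    refine (h1.biUnion fun p _ => (hf V Y hc k).1 p).subset ?_
    rintro C ⟨hC, p, hp, hx⟩
    exact Set.mem_biUnion (show p ∈ _ from ⟨hp.1, hx⟩) ⟨hC, hp⟩
  have h3 : ∀ C, Tight Y k C → {y | IsEnd Y C y}.Finite := by
    intro C hC
    refine ((hC.1.image Prod.fst).union (hC.1.image Prod.snd)).subset ?_
    rintro y ⟨p, hp, rfl | rfl⟩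
    · exact Or.inl ⟨p, hp, rfl⟩
    · exact Or.inr ⟨p, hp, rfl⟩
  refine ((hl x).union (h2.biUnion fun C hC => h3 C hC.1)).subset ?_
  rintro y (hy | ⟨C, c1, c2, c3⟩)
  · exact Or.inl hy
  · exact Or.inr (Set.mem_biUnion (show C ∈ _ from ⟨c1, c2⟩) c3)

theorem exists_reps (hfin : Finite (MulAction.orbitRel.Quotient H V)) :
    ∃ F : Set V, F.Finite ∧ ∀ x : V, ∃ h : H, h • x ∈ F := by
  refine ⟨Set.range (fun q : MulAction.orbitRel.Quotient H V => q.out), Set.finite_range _, ?_⟩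
  intro x
  have h : (MulAction.orbitRel H V).r (Quotient.mk'' x : MulAction.orbitRel.Quotient H V).out x :=
    Quotient.mk_out' x
  obtain ⟨g, hg⟩ := MulAction.orbitRel_apply.1 h
  exact ⟨g, _, hg.symm⟩

theorem fibre_finite (hs : ∀ v : V, Finite (MulAction.stabilizer H v)) (y y' : V) :
    {h : H | h • y = y'}.Finite := by
  by_cases he : ∃ g : H, g • y = y'
  · obtain ⟨g, rfl⟩ := he
    have h1 : (MulAction.stabilizer H y : Set H).Finite := hs y
    refine (h1.image fun h => g * h).subset ?_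
    intro h hh
    refine ⟨g⁻¹ * h, ?_, by simp⟩
    simp only [SetLike.mem_coe, MulAction.mem_stabilizer_iff, mul_smul]
    rw [show h • y = g • y from hh, inv_smul_smul]
  · exact Set.finite_empty.subset fun h hh => he ⟨h, hh⟩

end inv

theorem exists_ultra {V : Type} {A : Set V} (hA : A.Infinite) :
    ∃ p : Ultrafilter V, A ∈ p ∧ ∀ B : Set V, B.Finite → B ∉ p := by
  have : (Filter.cofinite ⊓ Filter.principal A).NeBot :=
    Filter.cofinite_inf_principal_neBot_iff.2 hA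
  refine ⟨Ultrafilter.of (Filter.cofinite ⊓ Filter.principal A), ?_, ?_⟩
  · exact Ultrafilter.of_le _ (Filter.mem_inf_of_right (Filter.mem_principal_self A))
  · intro B hB
    rw [← Ultrafilter.compl_mem_iff_notMem]
    exact Ultrafilter.of_le _ (Filter.mem_inf_of_left hB.compl_mem_cofinite)

theorem pigeon {α : Type} {Φ : Set α} (hΦ : Φ.Finite) (Q : α → ℕ → Prop)
    (hm : ∀ a n m, n ≤ m → Q a m → Q a n) (h : ∀ n, ∃ a ∈ Φ, Q a n) : ∃ a ∈ Φ, ∀ n, Q a n := by
  by_contra hc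
  push Not at hc
  choose! f hf using hc
  obtain ⟨M, hM⟩ := (hΦ.image f).bddAbove
  obtain ⟨a, ha, hq⟩ := h M
  exact hf a ha (hm a _ _ (hM ⟨a, ha, rfl⟩) hq)

theorem tt (hf : FinStmt) (hn : NestStmt) (ho : OriStmt) (hb : BlockStmt) : TTStmt := by
  intro H V _ _ _ d K R hsym htri hinv hball hself hconn hch hstab horb
  let Y : SimpleGraph V :=
    { Adj := fun a b => a ≠ b ∧ d a b ≤ R
      symm := ⟨fun a b h => ⟨h.1.symm, by rw [hsym]; exact h.2⟩⟩
      loopless := ⟨fun a h => h.1 rfl⟩ }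
  have hrtg : ∀ a b, Relation.ReflTransGen Y.Adj a b := by
    intro a b
    induction hconn a b with
    | refl => exact Relation.ReflTransGen.refl
    | @tail y z _ hs ih =>
      by_cases e : y = z
      · rw [← e]; exact ih
      · exact ih.tail ⟨e, hs⟩
  have hYc : Y.Connected :=
    ⟨fun a b => (SimpleGraph.reachable_iff_reflTransGen a b).2 (hrtg a b)⟩
  have hYl : ∀ v, (Y.neighborSet v).Finite := fun v => (hball v R).subset fun w hw => hw.2
  have hY : ∀ (h : H) (v w : V), Y.Adj v w → Y.Adj (h • v) (h • w) := fun h v w hvw =>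
    ⟨fun e => hvw.1 (smul_left_cancel h e), by rw [hinv]; exact hvw.2⟩
  obtain ⟨F, hF, hrep⟩ := exists_reps horb
  let E : V → Set (V × V) := fun z =>
    {p | Y.Adj p.1 p.2 ∧ (d z p.1 ≤ 2 * K + 3 * R ∨ d z p.2 ≤ 2 * K + 3 * R)}
  have hE : ∀ z, (E z).Finite := by
    intro z
    refine ((hball z (2 * K + 4 * R)).prod (hball z (2 * K + 4 * R))).subset ?_
    rintro ⟨u, v⟩ ⟨h1, h2⟩
    have t1 := htri z u v
    have t2 := htri z v u
    have t3 := hsym u v
    have t4 : d u v ≤ R := h1.2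
    simp only [Set.mem_prod, Set.mem_ofPred_eq] at h2 ⊢
    omega
  obtain ⟨k, hk⟩ := (hF.image fun z => (E z).ncard).bddAbove
  have hk' : ∀ z ∈ F, (E z).ncard ≤ k := fun z hz => hk ⟨z, hz, rfl⟩
  obtain ⟨s0, hs0⟩ : ∃ s0, ∀ x y, Near Y k x y → d x y ≤ s0 := by
    have h1 : (⋃ x ∈ F, (fun y => d x y) '' {y | Near Y k x y}).Finite :=
      hF.biUnion fun x _ => (near_finite hf hYc hYl k x).image _
    obtain ⟨s0, hs0⟩ := h1.bddAbove
    refine ⟨s0, fun x y hxy => ?_⟩
    obtain ⟨h, hh⟩ := hrep x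
    rw [← hinv h]
    exact hs0 (Set.mem_biUnion hh ⟨h • y, near_smul hY h hxy, rfl⟩)
  obtain ⟨N, n1, n2, n3, n4, n5⟩ := hn H V Y hYc hY k
  obtain ⟨W, instW, T, side, pr, o1, o2, o3, o4, o5, o6, o7, o8, o9, -⟩ :=
    ho H V N (fun C hC => (n1 C hC).2.2.1) n2 n3 n4 (fun x y =>
      ((hf V Y hYc k).2.2 x y).subset fun C hC => ⟨n1 C hC.1, hC.2⟩)
  obtain ⟨β, b1, b2, b3, b4, b5⟩ := hb H V W Y k N side hYc hYl hY n1 n2 n3 o4 o5 o6 o7 o8 o9
  let rel : V → V → V → Prop := fun z x y => Y.Adj x y ∧ (x, y) ∉ E z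
  let comp : V → V → Set V := fun z w => {y | Relation.ReflTransGen (rel z) w y}
  have hrs : ∀ z x y, rel z x y → rel z y x := fun z x y h =>
    ⟨h.1.symm, fun h' => h.2 ⟨h.1, h'.2.symm⟩⟩
  have hrs' : ∀ z x y, Relation.ReflTransGen (rel z) x y → Relation.ReflTransGen (rel z) y x := by
    intro z x y h
    induction h with
    | refl => exact Relation.ReflTransGen.refl
    | tail _ hs ih => exact Relation.ReflTransGen.head (hrs _ _ _ hs) ih
  have hgate : ∀ z b, ∃ w ∈ insert z (Prod.fst '' E z), b ∈ comp z w := by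
    intro z b
    induction hrtg b z using Relation.ReflTransGen.head_induction_on with
    | refl => exact ⟨z, Set.mem_insert _ _, Relation.ReflTransGen.refl⟩
    | @head x y hs _ ih =>
      by_cases e : (x, y) ∈ E z
      · exact ⟨x, Or.inr ⟨_, e, rfl⟩, Relation.ReflTransGen.refl⟩
      · obtain ⟨w, hw, hy⟩ := ih
        exact ⟨w, hw, Relation.ReflTransGen.tail hy (hrs _ _ _ ⟨hs, e⟩)⟩
  have hsep : ∀ z a b, a ≠ b → d z a + d z b < d a b + K + 2 * R →
      ¬ Relation.ReflTransGen (rel z) b a := by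
    intro z a b hab hz hr
    obtain ⟨n, x, h0, hn, hx⟩ := rtg_chain hr
    obtain ⟨n, rfl⟩ : ∃ n', n = n' + 1 := by
      rcases n with _ | n
      · exact absurd (hn.symm.trans h0) hab
      · exact ⟨n, rfl⟩
    obtain ⟨i, hi, hc⟩ := hch z x n
    rw [h0, hn] at hc
    have h1 := hx i (by omega)
    have h2 : d (x i) (x (i + 1)) ≤ R := h1.1.2
    have h3 := hsym a b
    exact h1.2 ⟨h1.1, Or.inl (by simp only; omega)⟩
  have hfin : ∀ s, (β s).Finite := by
    intro s
    by_contra hinf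
    let Φ : Set (V × W × V) := {φ | φ.1 ∈ F ∧ (∃ m ∈ β φ.2.1, d φ.1 m ≤ 2 * K + s0 + R) ∧
      φ.2.2 ∈ insert φ.1 (Prod.fst '' E φ.1)}
    have hΦ : Φ.Finite := by
      have h1 : ∀ z, {s' | ∃ m ∈ β s', d z m ≤ 2 * K + s0 + R}.Finite := fun z =>
        ((hball z (2 * K + s0 + R)).biUnion fun m _ => b2 m).subset (by
          rintro s' ⟨m, h1, h2⟩
          exact Set.mem_biUnion (show m ∈ _ from h2) h1)
      refine (hF.biUnion fun z _ => ((Set.finite_singleton z).prod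
        ((h1 z).prod (((hE z).image Prod.fst).insert z)))).subset ?_
      rintro ⟨z, s', w⟩ ⟨h1, h2, h3⟩
      exact Set.mem_biUnion (show z ∈ F from h1) ⟨rfl, h2, h3⟩
    let Q : V × W × V → ℕ → Prop := fun φ n =>
      (∃ a ∈ β φ.2.1, a ∉ comp φ.1 φ.2.2 ∧ n ≤ d φ.1 a) ∧
      ∃ b ∈ β φ.2.1, b ∈ comp φ.1 φ.2.2 ∧ n ≤ d φ.1 b
    have hQ : ∀ n, ∃ φ ∈ Φ, Q φ n := by
      intro n
      obtain ⟨a, ha⟩ := b1 s
      obtain ⟨b, hb, hab⟩ : ∃ b ∈ β s, 3 * n + 3 * R + K < d a b := by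
        by_contra hc
        push Not at hc
        exact hinf ((hball a _).subset hc)
      have e1 := hself a
      have e2 := hself b
      obtain ⟨m, ⟨y, hm⟩, m1, m2⟩ := centre htri hsym hch (t := s0)
        (fun x y h => hs0 x y h.2.2) (b5 s a ha b hb) (L := 2 * n + R) (by omega) (by omega)
      obtain ⟨z, -, z1, z2⟩ := centre htri hsym hch (t := R) (r := Y.Adj)
        (fun x y h => h.2) (hrtg a b) (L := 2 * n + R) (by omega) (by omega)
      have hzm := centre_close hsym hch m1 m2 z1 z2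
      obtain ⟨h, hh⟩ := hrep z
      obtain ⟨w, hw, hbw⟩ := hgate (h • z) (h • b)
      have t1 := htri a z b
      have t2 := hsym a z
      refine ⟨(h • z, h • s, w), ⟨hh, ⟨h • m, b3 h s m hm.2.1, by rw [hinv]; exact hzm⟩, hw⟩,
        ⟨h • a, b3 h s a ha, ?_, by simp only [hinv]; omega⟩,
        h • b, b3 h s b hb, hbw, by simp only [hinv]; omega⟩
      intro haw
      refine hsep (h • z) (h • a) (h • b) ?_ (by simp only [hinv]; omega)
        ((hrs' _ _ _ hbw).trans haw)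
      intro e
      have e' := smul_left_cancel h e
      rw [e'] at hab
      omega
    obtain ⟨⟨z, s', w⟩, hφ, hq⟩ := pigeon hΦ Q (by
      rintro φ n m hnm ⟨⟨a, a1, a2, a3⟩, b, c1, c2, c3⟩
      exact ⟨⟨a, a1, a2, hnm.trans a3⟩, b, c1, c2, hnm.trans c3⟩) hQ
    have hunb : ∀ A : Set V, (∀ n, ∃ a ∈ A, n ≤ d z a) → A.Infinite := by
      intro A hA hfinA
      obtain ⟨M, hM⟩ := (hfinA.image fun a => d z a).bddAbove
      obtain ⟨a, ha, h1⟩ := hA (M + 1)
      have : d z a ≤ M := hM ⟨a, ha, rfl⟩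
      omega
    obtain ⟨p, p1, p2⟩ := exists_ultra (hunb (β s' ∩ comp z w) fun n => by
      obtain ⟨b, c1, c2, c3⟩ := (hq n).2
      exact ⟨b, ⟨c1, c2⟩, c3⟩)
    obtain ⟨q, q1, q2⟩ := exists_ultra (hunb (β s' ∩ (comp z w)ᶜ) fun n => by
      obtain ⟨a, c1, c2, c3⟩ := (hq n).1
      exact ⟨a, ⟨c1, c2⟩, c3⟩)
    have hsub : cob Y (comp z w) ⊆ E z := by
      rintro ⟨u, v⟩ ⟨h1, h2, h3⟩
      by_contra e
      exact h3 (Relation.ReflTransGen.tail h2 ⟨h1, e⟩)
    obtain ⟨C, hC, c1, c2⟩ := n5 p q (comp z w) ((hE z).subset hsub)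
      ((Set.ncard_le_ncard hsub (hE z)).trans (hk' z hφ.1))
      (Filter.mem_of_superset p1 Set.inter_subset_right)
      (Filter.mem_of_superset q1 Set.inter_subset_right)
    by_cases hs : C ∈ side s'
    · exact q2 _ (b4 s' C hs)
        (Filter.inter_mem (Filter.mem_of_superset q1 Set.inter_subset_left) c2)
    · have hs' : Cᶜ ∈ side s' := by
        by_contra h1
        exact hs ((o6 s' C hC).2 h1)
      refine p2 _ (b4 s' _ hs') ?_
      rw [compl_compl]
      exact Filter.inter_mem (Filter.mem_of_superset p1 Set.inter_subset_left) c1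
  refine ⟨W, instW, T, pr, o1, o2, ?_, ?_, o3⟩
  · intro s
    obtain ⟨y, hy⟩ := b1 s
    refine Set.Finite.subset ((hfin s).biUnion fun y' _ => fibre_finite hstab y y') ?_
    intro h hh
    have h1 := b3 h s y hy
    rw [show h • s = s from hh] at h1
    exact Set.mem_biUnion h1 rfl
  · have h1 : (⋃ y ∈ F, {s | y ∈ β s}).Finite := hF.biUnion fun y _ => b2 y
    have := h1.to_subtype
    refine Finite.of_surjective
      (fun s : (⋃ y ∈ F, {s | y ∈ β s} : Set W) =>
        (Quotient.mk'' s.1 : MulAction.orbitRel.Quotient H W)) ?_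
    intro q
    induction q using Quotient.inductionOn' with
    | h s =>
      obtain ⟨y, hy⟩ := b1 s
      obtain ⟨h, hh⟩ := hrep y
      refine ⟨⟨h • s, Set.mem_biUnion hh (b3 h s y hy)⟩, Quotient.sound' ?_⟩
      exact MulAction.orbitRel_apply.2 ⟨h, rfl⟩

end Pool.Agent.Lib.MP_435286_al.CF
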