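import Pool.Agent.Lib.MP_435286_al.CF.Defs

/-!
A tree action gives a tree-like norm.
-/

namespace Pool.Agent.Lib.MP_435286_al.CF

open SimpleGraph

namespace BackA

variable {V : Type} {T : SimpleGraph V}

/-- The weight of a walk. -/
def W (wt : V → V → ℕ) : ∀ {x y : V}, T.Walk x y → ℕ
  | _, _, .nil => 0
  | x, _, .cons (v := w) _ p => wt x w + W wt p

variable {wt : V → V → ℕ}

lemma W_append {x y z : V} (p : T.Walk x y) (q : T.Walk y z) :
    W wt (p.append q) = W wt p + W wt q := by
  induction p with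
  | nil => simp [W]
  | cons h p ih => rw [Walk.cons_append, W, W, ih, add_assoc]

lemma W_reverse (hs : ∀ a b, wt a b = wt b a) {x y : V} (p : T.Walk x y) :
    W wt p.reverse = W wt p := by
  induction p with
  | nil => rfl
  | cons h p ih => rw [Walk.reverse_cons, W_append, ih, W, W, W, hs, add_zero, add_comm]

lemma W_map (f : T →g T) (hf : ∀ a b, wt (f a) (f b) = wt a b) {x y : V} (p : T.Walk x y) :
    W wt (p.map f) = W wt p := by
  induction p with
  | nil => rfl
  | cons h p ih => rw [Walk.map_cons, W, W, ih, hf]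

variable (T wt) in
/-- The weighted distance. -/
noncomputable def dw (x y : V) : ℕ := sInf (Set.range fun p : T.Walk x y => W wt p)

lemma dw_le {x y : V} (p : T.Walk x y) : dw T wt x y ≤ W wt p := Nat.sInf_le ⟨p, rfl⟩

lemma dw_ex (hc : T.Connected) (x y : V) : ∃ p : T.Walk x y, W wt p = dw T wt x y := by
  obtain ⟨p⟩ := hc.preconnected x y
  exact Nat.sInf_mem (s := Set.range fun p : T.Walk x y => W wt p) ⟨_, p, rfl⟩

lemma dw_self (x : V) : dw T wt x x = 0 := Nat.le_zero.1 (dw_le (.nil : T.Walk x x))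

lemma dw_tri (hc : T.Connected) (x y z : V) : dw T wt x z ≤ dw T wt x y + dw T wt y z := by
  obtain ⟨p, hp⟩ := dw_ex (wt := wt) hc x y
  obtain ⟨q, hq⟩ := dw_ex (wt := wt) hc y z
  rw [← hp, ← hq, ← W_append]
  exact dw_le _

lemma dw_symm (hc : T.Connected) (hs : ∀ a b, wt a b = wt b a) (x y : V) :
    dw T wt x y = dw T wt y x := by
  have h : ∀ x y, dw T wt x y ≤ dw T wt y x := fun x y => by
    obtain ⟨p, hp⟩ := dw_ex (wt := wt) hc y x
    rw [← hp, ← W_reverse hs]
    exact dw_le _
  exact le_antisymm (h x y) (h y x)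

lemma dw_map (hc : T.Connected) (f : T →g T) (hf : ∀ a b, wt (f a) (f b) = wt a b) (x y : V) :
    dw T wt (f x) (f y) ≤ dw T wt x y := by
  obtain ⟨p, hp⟩ := dw_ex (wt := wt) hc x y
  rw [← hp, ← W_map f hf]
  exact dw_le _

lemma fin_walk (h1 : ∀ a b, 1 ≤ wt a b) (hf : ∀ a r, {b | wt a b ≤ r}.Finite) (r : ℕ) :
    ∀ x, {y | ∃ p : T.Walk x y, W wt p ≤ r}.Finite := by
  induction r with
  | zero =>
    refine fun x => (Set.finite_singleton x).subset ?_
    rintro y ⟨p, hp⟩
    cases p with
    | nil => rfl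
    | cons h p =>
      rw [W] at hp
      exact absurd ((h1 _ _).trans (Nat.le_of_add_right_le hp)) (by decide)
  | succ r ih =>
    refine fun x => (((hf x (r + 1)).biUnion fun b _ => ih b).insert x).subset ?_
    rintro y ⟨p, hp⟩
    cases p with
    | nil => exact Set.mem_insert _ _
    | @cons _ b _ h p =>
      rw [W] at hp
      have := h1 x b
      exact Set.mem_insert_of_mem _ (Set.mem_biUnion (x := b) (Nat.le_of_add_right_le hp)
        ⟨p, by omega⟩)

variable (T) in
/-- Every walk from `x` to `y` passes through `m`. -/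
def Btw (x m y : V) : Prop := ∀ p : T.Walk x y, m ∈ p.support

lemma Btw.symm {x m y : V} (h : Btw T x m y) : Btw T y m x := fun p => by
  simpa using h p.reverse

lemma btw_right (x y : V) : Btw T x y y := fun p => p.end_mem_support

lemma Btw.add (hc : T.Connected) {x m y : V} (h : Btw T x m y) :
    dw T wt x m + dw T wt m y ≤ dw T wt x y := by
  classical
  obtain ⟨p, hp⟩ := dw_ex (wt := wt) hc x y
  rw [← hp, ← p.take_spec (h p), W_append]
  exact add_le_add (dw_le _) (dw_le _)

lemma btw_of_path (ha : T.IsAcyclic) {x m y : V} (p : T.Walk x y) (hp : p.IsPath)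
    (hm : m ∈ p.support) : Btw T x m y := fun q => by
  classical
  have h := congrArg Subtype.val ((ha.subsingleton_path x y).elim ⟨p, hp⟩ ⟨q.bypass, q.bypass_isPath⟩)
  exact q.support_bypass_subset_support ((show p = q.bypass from h) ▸ hm)

lemma Btw.step {x m z z' : V} (h : Btw T x m z) (a : T.Adj z z') (hne : m ≠ z) :
    Btw T x m z' := fun p => by
  have h1 := h (p.concat a.symm)
  rw [Walk.support_concat] at h1
  simpa [hne] using h1

lemma btw_adj (ha : T.IsAcyclic) {x y z z' : V} (p : T.Walk x y) (hp : p.IsPath)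
    (hz : z ∈ p.support) (a : T.Adj z z') (hn : z' ∉ p.support) : Btw T x z z' := by
  classical
  refine btw_of_path ha ((p.takeUntil z hz).concat a) ?_ ?_
  · exact (hp.takeUntil hz).concat (fun h => hn (p.support_takeUntil_subset_support hz h)) a
  · rw [Walk.support_concat]
    simp

lemma median (ht : T.IsTree) (x y z : V) : ∃ m, Btw T x m y ∧ Btw T x m z ∧ Btw T y m z := by
  have ha := ht.isAcyclic
  obtain ⟨p, hp, -⟩ := ht.existsUnique_path x y
  have hr := (reachable_iff_reflTransGen x z).1 (ht.connected.preconnected x z)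
  induction hr with
  | refl => exact ⟨x, (btw_right y x).symm, btw_right x x, btw_right y x⟩
  | @tail z z' _ a ih =>
    obtain ⟨m, h1, h2, h3⟩ := ih
    by_cases hm : m = z
    · subst hm
      by_cases hz : z' ∈ p.support
      · exact ⟨z', btw_of_path ha p hp hz, btw_right _ _, btw_right _ _⟩
      · exact ⟨m, h1, btw_adj ha p hp (h1 p) a hz,
          btw_adj ha p.reverse hp.reverse (h1.symm _) a (by simpa using hz)⟩
    · exact ⟨m, h1, h2.step a hm, h3.step a hm⟩

lemma Btw.chain {x : ℕ → V} {m : V} (k : ℕ) (h : Btw T (x 0) m (x (k + 1))) :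
    ∃ i ≤ k, Btw T (x i) m (x (i + 1)) := by
  induction k with
  | zero => exact ⟨0, le_rfl, h⟩
  | succ k ih =>
    by_cases h1 : Btw T (x (k + 1)) m (x (k + 1 + 1))
    · exact ⟨k + 1, le_rfl, h1⟩
    · obtain ⟨q, hq⟩ := not_forall.1 h1
      obtain ⟨i, hi, h2⟩ := ih fun p =>
        ((Walk.mem_support_append_iff p q).1 (h (p.append q))).resolve_right hq
      exact ⟨i, hi.trans k.le_succ, h2⟩

variable {G : Type} [Group G] [MulAction G V]

lemma fin_fib (hs : ∀ v : V, Finite (MulAction.stabilizer G v)) (a b : V) :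
    {g : G | g • a = b}.Finite := by
  rcases Set.eq_empty_or_nonempty {g : G | g • a = b} with h | ⟨g₀, h⟩
  · rw [h]
    exact Set.finite_empty
  · have := hs a
    refine ((Set.toFinite (MulAction.stabilizer G a : Set G)).image (g₀ * ·)).subset fun g hg => ?_
    refine ⟨g₀⁻¹ * g, ?_, mul_inv_cancel_left _ _⟩
    show (g₀⁻¹ * g) • a = a
    rw [mul_smul, show g • a = b from hg, ← show g₀ • a = b from h, inv_smul_smul]

lemma exists_wt [Countable G] (hs : ∀ v : V, Finite (MulAction.stabilizer G v))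
    [Finite (MulAction.orbitRel.Quotient G V)] : ∃ wt : V → V → ℕ, (∀ a b, wt a b = wt b a) ∧
      (∀ (g : G) a b, wt (g • a) (g • b) = wt a b) ∧ (∀ a b, 1 ≤ wt a b) ∧
      ∀ a r, {b | wt a b ≤ r}.Finite := by
  have hV : Countable V := by
    refine Function.Surjective.countable
      (f := fun x : G × MulAction.orbitRel.Quotient G V => x.1 • x.2.out) fun v => ?_
    obtain ⟨g, hg⟩ := (MulAction.orbitRel G V).symm
      (Quotient.mk_out (s := MulAction.orbitRel G V) v)
    exact ⟨(g, Quotient.mk _ v), hg⟩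
  obtain ⟨f, hf⟩ := exists_injective_nat (V × V)
  let c : V → V → ℕ := fun a b => sInf (Set.range fun g : G => f (g • a, g • b))
  have hc : ∀ (g : G) a b, c (g • a) (g • b) = c a b := fun g a b => by
    refine congrArg sInf ?_
    ext n
    constructor
    · rintro ⟨h, rfl⟩
      exact ⟨h * g, by simp only [mul_smul]⟩
    · rintro ⟨h, rfl⟩
      exact ⟨h * g⁻¹, by simp only [mul_smul, inv_smul_smul]⟩
  refine ⟨fun a b => c a b + c b a + 1, fun a b => congrArg (· + 1) (add_comm _ _),
    fun g a b => by simp only [hc], fun _ _ => Nat.le_add_left _ _, fun a r => ?_⟩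
  have h1 : (f ⁻¹' Set.Iic r).Finite := (Set.finite_Iic r).preimage hf.injOn
  refine (h1.biUnion fun x _ => (fin_fib hs a x.1).image fun g => g⁻¹ • x.2).subset fun b hb => ?_
  obtain ⟨g, hg⟩ : c a b ∈ Set.range fun g : G => f (g • a, g • b) :=
    Nat.sInf_mem (Set.range_nonempty _)
  have hb' : c a b + c b a + 1 ≤ r := hb
  exact Set.mem_biUnion (x := (g • a, g • b)) (show f _ ≤ r from hg.trans_le (by omega))
    ⟨g, rfl, inv_smul_smul _ _⟩

end BackA

open BackA in
theorem back : BackStmt := by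
  rintro G _ hG ⟨V, _, T, ht, hinv, hs, hq⟩
  obtain ⟨wt, w1, w2, w3, w4⟩ := exists_wt hs
  have hc := ht.connected
  obtain ⟨o⟩ := hc.nonempty
  have d1 : ∀ (g : G) x y, dw T wt (g • x) (g • y) = dw T wt x y := by
    have h : ∀ (g : G) x y, dw T wt (g • x) (g • y) ≤ dw T wt x y := fun g x y =>
      dw_map hc ⟨fun v => g • v, hinv g _ _⟩ (w2 g) x y
    refine fun g x y => le_antisymm (h g x y) ?_
    simpa using h g⁻¹ (g • x) (g • y)
  have d2 : ∀ a b : G, dw T wt o ((a⁻¹ * b) • o) = dw T wt (a • o) (b • o) := fun a b => by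
    rw [← d1 a, mul_smul, smul_inv_smul]
  obtain ⟨M, hM⟩ := (Set.finite_range fun q : MulAction.orbitRel.Quotient G V =>
    dw T wt q.out o).bddAbove
  have d3 : ∀ m : V, ∃ g : G, dw T wt m (g • o) ≤ M := fun m => by
    obtain ⟨g, hg⟩ := (MulAction.orbitRel G V).symm
      (Quotient.mk_out (s := MulAction.orbitRel G V) m)
    refine ⟨g, ?_⟩
    have h := (d1 g _ _).trans_le (hM ⟨Quotient.mk _ m, rfl⟩)
    exact (show g • _ = m from hg) ▸ h
  refine ⟨⟨fun g => dw T wt o (g • o), 2 * M, by rw [one_smul, dw_self], fun g => ?_,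
    fun g h => ?_, fun r => ?_, fun a k h => ?_⟩⟩
  · rw [← d1 g, smul_inv_smul, dw_symm hc w1]
  · rw [← d1 g o (h • o), mul_smul]
    exact dw_tri hc _ _ _
  · refine ((fin_walk (T := T) w3 w4 r o).biUnion fun y _ => fin_fib hs o y).subset fun g hg => ?_
    obtain ⟨p, hp⟩ := dw_ex (wt := wt) hc o (g • o)
    exact Set.mem_biUnion (x := g • o) ⟨p, hp.trans_le hg⟩ rfl
  · obtain ⟨m, m1, m2, m3⟩ := median ht (a • o) (h 0 • o) (h (k + 1) • o)
    obtain ⟨i, hi, m4⟩ := Btw.chain (x := fun i => h i • o) k m3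
    obtain ⟨g, hg⟩ := d3 m
    have key : ∀ x y, Btw T x m y →
        dw T wt x (g • o) + dw T wt (g • o) y ≤ dw T wt x y + 2 * M := fun x y hb => by
      have e1 := hb.add (wt := wt) hc
      have e2 := dw_tri (wt := wt) hc x m (g • o)
      have e3 := dw_tri (wt := wt) hc (g • o) m y
      have e4 := dw_symm hc w1 (g • o) m
      omega
    simp only [d2]
    exact ⟨g, i, hi, key _ _ m1, key _ _ m4, key _ _ m2.symm⟩

end Pool.Agent.Lib.MP_435286_al.CF
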