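import Pool.Agent.Lib.MP_435286_al.CF.Defs

/-!
A tree of trees: module BLOW.
-/

namespace Pool.Agent.Lib.MP_435286_al.CF

open SimpleGraph

namespace Blow

section graph

variable {I V W : Type} (B : SimpleGraph I) (T : SimpleGraph W) (a : I → I → W)

/-- One copy of `T` over every vertex of `B`, joined at the attaching points. -/
def tot : SimpleGraph (I × W) where
  Adj x y := (x.1 = y.1 ∧ T.Adj x.2 y.2) ∨ (B.Adj x.1 y.1 ∧ x.2 = a x.1 y.1 ∧ y.2 = a y.1 x.1)
  symm := ⟨by
    rintro x y (⟨h1, h2⟩ | ⟨h1, h2, h3⟩)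
    · exact Or.inl ⟨h1.symm, h2.symm⟩
    · exact Or.inr ⟨h1.symm, h3, h2⟩⟩
  loopless := ⟨by
    rintro x (⟨_, h2⟩ | ⟨h1, _⟩)
    · exact h2.ne rfl
    · exact h1.ne rfl⟩

theorem closed {Y : SimpleGraph V} {C : V → Prop} (hC : ∀ x y, Y.Adj x y → C x → C y)
    {x y : V} (h : Y.Reachable x y) (hx : C x) : C y := by
  rw [reachable_iff_reflTransGen] at h
  induction h with
  | refl => exact hx
  | tail _ h2 ih => exact hC _ _ h2 ih

theorem fib (hT : T.Connected) (P : I) (t t' : W) : (tot B T a).Reachable (P, t) (P, t') :=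
  closed (Y := T) (C := fun s => (tot B T a).Reachable (P, t) (P, s))
    (fun x y h hx => hx.trans (Adj.reachable (Or.inl ⟨rfl, h⟩))) (hT.preconnected t t')
    (Reachable.refl _)

theorem tot_conn (hB : B.Connected) (hT : T.Connected) : (tot B T a).Connected := by
  haveI := hB.nonempty
  haveI := hT.nonempty
  refine ⟨?_⟩
  rintro ⟨P, t⟩ ⟨Q, t'⟩
  refine closed (Y := B) (C := fun R => ∀ s, (tot B T a).Reachable (P, t) (R, s)) ?_
    (hB.preconnected P Q) (fun s => fib B T a hT P t s) t'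
  intro x y h hx s
  have h1 : (tot B T a).Adj (x, a x y) (y, a y x) := Or.inr ⟨h, rfl, rfl⟩
  exact ((hx _).trans h1.reachable).trans (fib B T a hT y _ s)

/-- `B` without the edges at `P`. -/
def off (P : I) : SimpleGraph I where
  Adj x y := B.Adj x y ∧ x ≠ P ∧ y ≠ P
  symm := ⟨fun _ _ h => ⟨h.1.symm, h.2.2, h.2.1⟩⟩
  loopless := ⟨fun _ h => h.1.ne rfl⟩

theorem off_uniq (hB : B.IsAcyclic) {P R Q : I} (h1 : B.Adj P R) (h2 : B.Adj P Q)
    (h : (off B P).Reachable R Q) : R = Q := by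
  by_contra hne
  have hb := isAcyclic_iff_forall_adj_isBridge.1 hB h1
  rw [isBridge_iff] at hb
  apply hb
  have h3 : (B.deleteEdges {s(P, R)}).Adj P Q := by
    rw [deleteEdges_adj]
    refine ⟨h2, ?_⟩
    rw [Set.mem_singleton_iff, Sym2.eq_iff]
    rintro (⟨_, h4⟩ | ⟨h4, _⟩)
    · exact hne h4.symm
    · exact h1.ne h4
  have h4 : off B P ≤ B.deleteEdges {s(P, R)} := by
    intro x y hxy
    rw [deleteEdges_adj]
    refine ⟨hxy.1, ?_⟩
    rw [Set.mem_singleton_iff, Sym2.eq_iff]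
    rintro (⟨h5, _⟩ | ⟨_, h5⟩)
    · exact hxy.2.1 h5
    · exact hxy.2.2 h5
  exact h3.reachable.trans (h.mono h4).symm

theorem tot_acyc (hB : B.IsAcyclic) (hT : T.IsAcyclic) : (tot B T a).IsAcyclic := by
  rw [isAcyclic_iff_forall_adj_isBridge]
  rintro ⟨P, t⟩ ⟨Q, t'⟩ hadj
  rw [isBridge_iff]
  intro hr
  rcases hadj with ⟨h1, h2⟩ | ⟨h1, h2, h3⟩
  · dsimp only at h1 h2
    subst h1
    have hb := isAcyclic_iff_forall_adj_isBridge.1 hT h2
    rw [isBridge_iff] at hb
    have key := closed (C := fun x : I × W =>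
      (x.1 = P ∧ (T.deleteEdges {s(t, t')}).Reachable t x.2) ∨
      (x.1 ≠ P ∧ ∃ R, B.Adj P R ∧ (off B P).Reachable R x.1 ∧
        (T.deleteEdges {s(t, t')}).Reachable t (a P R))) ?_ hr (Or.inl ⟨rfl, Reachable.refl _⟩)
    · rcases key with ⟨_, h⟩ | ⟨h, _⟩
      · exact hb h
      · exact h rfl
    · rintro ⟨X, u⟩ ⟨Y, v⟩ hxy hx
      rw [deleteEdges_adj] at hxy
      obtain ⟨hxy, hne⟩ := hxy
      dsimp only at hx ⊢
      rcases hxy with ⟨g1, g2⟩ | ⟨g1, g2, g3⟩
      · dsimp only at g1 g2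
        subst g1
        rcases hx with ⟨k1, k2⟩ | hx
        · subst k1
          refine Or.inl ⟨rfl, k2.trans (Adj.reachable ?_)⟩
          rw [deleteEdges_adj]
          refine ⟨g2, fun he => hne ?_⟩
          rw [Set.mem_singleton_iff, Sym2.eq_iff] at he ⊢
          rcases he with ⟨rfl, rfl⟩ | ⟨rfl, rfl⟩
          · exact Or.inl ⟨rfl, rfl⟩
          · exact Or.inr ⟨rfl, rfl⟩
        · exact Or.inr hx
      · dsimp only at g1 g2 g3
        rcases hx with ⟨k1, k2⟩ | ⟨k1, R, k2, k3, k4⟩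
        · subst k1
          exact Or.inr ⟨g1.ne', Y, g1, Reachable.refl _, g2 ▸ k2⟩
        · by_cases hY : Y = P
          · subst hY
            have := off_uniq B hB k2 g1.symm k3
            subst this
            exact Or.inl ⟨rfl, g3 ▸ k4⟩
          · exact Or.inr ⟨hY, R, k2, k3.trans (Adj.reachable ⟨g1, k1, hY⟩), k4⟩
  · dsimp only at h1 h2 h3
    have hb := isAcyclic_iff_forall_adj_isBridge.1 hB h1
    rw [isBridge_iff] at hb
    refine hb (closed (C := fun x : I × W => (B.deleteEdges {s(P, Q)}).Reachable P x.1) ?_ hr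
      (Reachable.refl _))
    rintro ⟨X, u⟩ ⟨Y, v⟩ hxy hx
    rw [deleteEdges_adj] at hxy
    obtain ⟨hxy, hne⟩ := hxy
    dsimp only at hx ⊢
    rcases hxy with ⟨g1, _⟩ | ⟨g1, g2, g3⟩
    · dsimp only at g1
      exact g1 ▸ hx
    · dsimp only at g1 g2 g3
      refine hx.trans (Adj.reachable ?_)
      rw [deleteEdges_adj]
      refine ⟨g1, fun he => hne ?_⟩
      rw [Set.mem_singleton_iff, Sym2.eq_iff] at he ⊢
      rcases he with ⟨rfl, rfl⟩ | ⟨rfl, rfl⟩
      · exact Or.inl ⟨by rw [g2, h2], by rw [g3, h3]⟩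
      · exact Or.inr ⟨by rw [g2, h3], by rw [g3, h2]⟩

end graph

section act

variable {G : Type} [Group G] (H : Subgroup G)

theorem smul_out (g : G) (P : G ⧸ H) : ((g * P.out : G) : G ⧸ H) = g • P := by
  conv_rhs => rw [← QuotientGroup.out_eq' P]
  rfl

/-- The cocycle of the chosen coset representatives. -/
noncomputable def coc (g : G) (P : G ⧸ H) : H :=
  ⟨(g • P).out⁻¹ * (g * P.out), by
    rw [← QuotientGroup.eq, QuotientGroup.out_eq', smul_out]⟩

theorem coc_val (g : G) (P : G ⧸ H) : (coc H g P : G) = (g • P).out⁻¹ * (g * P.out) := rfl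

theorem coc_one (P : G ⧸ H) : coc H 1 P = 1 := by
  ext
  simp [coc_val]

theorem coc_mul (g h : G) (P : G ⧸ H) : coc H (g * h) P = coc H g (h • P) * coc H h P := by
  ext
  simp only [coc_val, Subgroup.coe_mul, mul_smul]
  group

/-- The induced action. -/
@[reducible] noncomputable def ind (W : Type) [MulAction H W] : MulAction G ((G ⧸ H) × W) where
  smul g x := (g • x.1, coc H g x.1 • x.2)
  one_smul x := by
    change ((1 : G) • x.1, coc H 1 x.1 • x.2) = x
    rw [one_smul, coc_one, one_smul]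
  mul_smul g h x := by
    change ((g * h) • x.1, coc H (g * h) x.1 • x.2) =
      (g • h • x.1, coc H g (h • x.1) • coc H h x.1 • x.2)
    rw [mul_smul, coc_mul, mul_smul]

theorem out_inv_smul (P : G ⧸ H) : P.out⁻¹ • P = ((1 : G) : G ⧸ H) := by
  rw [← smul_out, inv_mul_cancel]

end act

end Blow

open Blow in
theorem blow : BlowStmt := by
  intro G _ H B W _ T att hB hBi hT hTi hst hfin hatt
  have heq : ∀ (g : G) (P Q : G ⧸ H), B.Adj P Q →
      coc H g P • att (P.out⁻¹ • Q) = att ((g • P).out⁻¹ • g • Q) := by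
    intro g P Q h
    have h1 := hBi P.out⁻¹ P Q h
    rw [out_inv_smul] at h1
    rw [← hatt _ _ h1, coc_val, ← mul_smul, ← mul_smul]
    congr 2
    group
  letI := ind H W
  have hs : ∀ (g : G) (x : (G ⧸ H) × W), g • x = (g • x.1, coc H g x.1 • x.2) := fun _ _ => rfl
  refine ⟨(G ⧸ H) × W, ind H W, tot B T (fun P Q => att (P.out⁻¹ • Q)),
    ⟨tot_conn _ _ _ hB.connected hT.connected, tot_acyc _ _ _ hB.isAcyclic hT.isAcyclic⟩,
    ?_, ?_, ?_⟩
  · rintro g ⟨P, t⟩ ⟨Q, t'⟩ (⟨h1, h2⟩ | ⟨h1, h2, h3⟩)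
    · dsimp only at h1 h2
      subst h1
      exact Or.inl ⟨rfl, hTi _ _ _ h2⟩
    · dsimp only at h1 h2 h3
      refine Or.inr ⟨hBi g _ _ h1, ?_, ?_⟩
      · change coc H g P • t = att ((g • P).out⁻¹ • g • Q)
        rw [h2, heq g P Q h1]
      · change coc H g Q • t' = att ((g • Q).out⁻¹ • g • P)
        rw [h3, heq g Q P h1.symm]
  · rintro ⟨P, t⟩
    haveI := hst t
    have hm : ∀ g : MulAction.stabilizer G (P, t), (g : G) • P = P ∧ coc H g P • t = t := by
      intro g
      have := g.2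
      rw [MulAction.mem_stabilizer_iff, hs] at this
      exact Prod.ext_iff.1 this
    refine Finite.of_injective
      (fun g : MulAction.stabilizer G (P, t) =>
        (⟨coc H g P, (hm g).2⟩ : MulAction.stabilizer H t)) ?_
    intro g g' h
    have h1 : (coc H g P : G) = coc H g' P := congrArg (fun z => ((z.1 : H) : G)) h
    rw [coc_val, coc_val, (hm g).1, (hm g').1] at h1
    exact Subtype.ext (mul_right_cancel (mul_left_cancel h1))
  · refine Finite.of_surjective
      (fun q : MulAction.orbitRel.Quotient H W =>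
        (Quotient.mk _ (((1 : G) : G ⧸ H), q.out) :
          MulAction.orbitRel.Quotient G ((G ⧸ H) × W))) ?_
    intro z
    induction z using Quotient.inductionOn with
    | h x =>
      obtain ⟨P, t⟩ := x
      refine ⟨Quotient.mk _ t, ?_⟩
      have h1 : (MulAction.orbitRel H W) t (Quotient.mk (MulAction.orbitRel H W) t).out :=
        Quotient.exact (Quotient.out_eq _).symm
      rw [MulAction.orbitRel_apply] at h1
      obtain ⟨h, hh⟩ := h1
      symm
      apply Quotient.sound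
      refine ⟨P.out * h * (((1 : G) : G ⧸ H)).out⁻¹, ?_⟩
      have h2 : (P.out * h * (((1 : G) : G ⧸ H)).out⁻¹) • ((1 : G) : G ⧸ H) = P := by
        rw [← smul_out, inv_mul_cancel_right, QuotientGroup.mk_mul_of_mem _ h.2,
          QuotientGroup.out_eq']
      have h3 : coc H (P.out * h * (((1 : G) : G ⧸ H)).out⁻¹) ((1 : G) : G ⧸ H) = h := by
        ext
        rw [coc_val, h2]
        group
      dsimp only at hh ⊢
      rw [hs]
      dsimp only
      rw [h2, h3, hh]

end Pool.Agent.Lib.MP_435286_al.CF
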