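import Pool.Agent.Lib.MP_435286_al.CF.Stmt
import Pool.Agent.Lib.MP_435286_al.St

/-!
Module statements for the classification of unit groups of context-free monoids.
Paper proof: team store file h14_cf_README.md.
-/

namespace Pool.Agent.Lib.MP_435286_al.CF

open Pointwise

/-- The chain inequality for Gromov products, written without subtraction. -/
def Chain {V : Type} (d : V → V → ℕ) (K : ℕ) : Prop :=
  ∀ (o : V) (x : ℕ → V) (n : ℕ), ∃ i, i ≤ n ∧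
    d o (x i) + d o (x (i + 1)) + d (x 0) (x (n + 1)) ≤
      d o (x 0) + d o (x (n + 1)) + d (x i) (x (i + 1)) + K

/-- Module GAP (M3): the tree of cosets of `H`, the subgroup generated by the ball of radius
`8 δ`, and the attaching sets. -/
def GapStmt : Prop :=
  ∀ (G : Type) [Group G] (μ : TM G) (H : Subgroup G),
    H = Subgroup.closure {g | μ.n g ≤ 8 * μ.δ} →
    ∃ (B : SimpleGraph (G ⧸ H)) (S : G ⧸ H → G ⧸ H → Set G), B.IsTree ∧
      (∀ (g : G) (P Q : G ⧸ H), B.Adj P Q → B.Adj (g • P) (g • Q)) ∧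
      (∀ (g : G) (P Q : G ⧸ H), S (g • P) (g • Q) = g • S P Q) ∧
      ∀ P Q, B.Adj P Q → (S P Q).Nonempty ∧ (∀ a ∈ S P Q, (a : G ⧸ H) = P) ∧
        ∀ a ∈ S P Q, ∀ b ∈ S P Q, μ.n (a⁻¹ * b) ≤ 5 * μ.δ

/-- Module BLOW (M5, first half): a tree of trees. -/
def BlowStmt : Prop :=
  ∀ (G : Type) [Group G] (H : Subgroup G) (B : SimpleGraph (G ⧸ H)) (W : Type) [MulAction H W]
    (T : SimpleGraph W) (att : G ⧸ H → W), B.IsTree →
    (∀ (g : G) (P Q : G ⧸ H), B.Adj P Q → B.Adj (g • P) (g • Q)) → T.IsTree →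
    (∀ (h : H) (v w : W), T.Adj v w → T.Adj (h • v) (h • w)) →
    (∀ v : W, Finite (MulAction.stabilizer H v)) → Finite (MulAction.orbitRel.Quotient H W) →
    (∀ (h : H) (Q : G ⧸ H), B.Adj ((1 : G) : G ⧸ H) Q → att ((h : G) • Q) = h • att Q) →
    TreeAct G

/-! ### Cuts -/

/-- The edges leaving `C`. -/
def cob {V : Type} (Y : SimpleGraph V) (C : Set V) : Set (V × V) :=
  {p | Y.Adj p.1 p.2 ∧ p.1 ∈ C ∧ p.2 ∉ C}

/-- `C` induces a connected subgraph (or is empty). -/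
def ConnIn {V : Type} (Y : SimpleGraph V) (C : Set V) : Prop :=
  ∀ x ∈ C, ∀ y ∈ C, Relation.ReflTransGen (fun a b => Y.Adj a b ∧ a ∈ C ∧ b ∈ C) x y

/-- Tight cuts of order at most `k`. -/
def Tight {V : Type} (Y : SimpleGraph V) (k : ℕ) (C : Set V) : Prop :=
  (cob Y C).Finite ∧ (cob Y C).ncard ≤ k ∧ C.Nonempty ∧ Cᶜ.Nonempty ∧ ConnIn Y C ∧ ConnIn Y Cᶜ

/-- One of the four corners is empty. -/
def Nested {V : Type} (C D : Set V) : Prop := C ⊆ D ∨ C ⊆ Dᶜ ∨ Cᶜ ⊆ D ∨ Cᶜ ⊆ Dᶜ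

/-- Module FIN: F1, F2, F3. -/
def FinStmt : Prop :=
  ∀ (V : Type) (Y : SimpleGraph V), Y.Connected → ∀ k : ℕ,
    (∀ p : V × V, {C | Tight Y k C ∧ p ∈ cob Y C}.Finite) ∧
    (∀ C, Tight Y k C → {D | Tight Y k D ∧ ¬ Nested C D}.Finite) ∧
    ∀ x y : V, {C | Tight Y k C ∧ x ∈ C ∧ y ∉ C}.Finite

/-- Module NEST: an invariant nested family of optimal cuts. -/
def NestStmt : Prop :=
  ∀ (H V : Type) [Group H] [MulAction H V] (Y : SimpleGraph V), Y.Connected →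
    (∀ (h : H) (v w : V), Y.Adj v w → Y.Adj (h • v) (h • w)) → ∀ k : ℕ,
    ∃ N : Set (Set V), (∀ C ∈ N, Tight Y k C) ∧ (∀ C ∈ N, Cᶜ ∈ N) ∧
      (∀ C ∈ N, ∀ D ∈ N, Nested C D) ∧ (∀ (h : H), ∀ C ∈ N, h • C ∈ N) ∧
      ∀ (p q : Ultrafilter V) (D : Set V), (cob Y D).Finite → (cob Y D).ncard ≤ k →
        D ∈ p → Dᶜ ∈ q → ∃ C ∈ N, C ∈ p ∧ Cᶜ ∈ q

/-- Module ORI: the tree of consistent orientations of a nested family. -/
def OriStmt : Prop :=
  ∀ (H V : Type) [Group H] [MulAction H V] [Nonempty V] (N : Set (Set V)),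
    (∀ C ∈ N, C.Nonempty) → (∀ C ∈ N, Cᶜ ∈ N) → (∀ C ∈ N, ∀ D ∈ N, Nested C D) →
    (∀ (h : H), ∀ C ∈ N, h • C ∈ N) → (∀ x y : V, {C | C ∈ N ∧ x ∈ C ∧ y ∉ C}.Finite) →
    ∃ (W : Type) (_ : MulAction H W) (T : SimpleGraph W) (side : W → Set (Set V)) (pr : V → W),
      T.IsTree ∧ (∀ (h : H) (v w : W), T.Adj v w → T.Adj (h • v) (h • w)) ∧
      (∀ (h : H) (x : V), pr (h • x) = h • pr x) ∧ Function.Injective side ∧
      (∀ s, side s ⊆ N) ∧ (∀ s, ∀ C ∈ N, C ∈ side s ↔ Cᶜ ∉ side s) ∧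
      (∀ s, ∀ C ∈ side s, ∀ D ∈ N, C ⊆ D → D ∈ side s) ∧
      (∀ s x, {C | C ∈ side s ∧ x ∉ C}.Finite) ∧
      (∀ (h : H) s, ∀ C ∈ side s, h • C ∈ side (h • s)) ∧
      ∀ x C, C ∈ side (pr x) ↔ C ∈ N ∧ x ∈ C

/-- Module TT (M4): the structure tree of a coarsely connected tree-like space. -/
def TTStmt : Prop :=
  ∀ (H V : Type) [Group H] [MulAction H V] [Nonempty V] (d : V → V → ℕ) (K R : ℕ),
    (∀ a b, d a b = d b a) → (∀ a b c, d a c ≤ d a b + d b c) →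
    (∀ (h : H) a b, d (h • a) (h • b) = d a b) → (∀ a n, {b | d a b ≤ n}.Finite) →
    (∀ a, d a a ≤ R) → (∀ a b, Relation.ReflTransGen (fun x y => d x y ≤ R) a b) → Chain d K →
    (∀ v : V, Finite (MulAction.stabilizer H v)) → Finite (MulAction.orbitRel.Quotient H V) →
    ∃ (W : Type) (_ : MulAction H W) (T : SimpleGraph W) (pr : V → W), T.IsTree ∧
      (∀ (h : H) (v w : W), T.Adj v w → T.Adj (h • v) (h • w)) ∧
      (∀ v : W, Finite (MulAction.stabilizer H v)) ∧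
      Finite (MulAction.orbitRel.Quotient H W) ∧ ∀ (h : H) (x : V), pr (h • x) = h • pr x

/-- Module FWD (M5, second half). -/
def FwdStmt : Prop :=
  ∀ (G : Type) [Group G], TM G → TreeAct G

/-- Module BACK: a tree action gives a tree-like norm (weight the edge orbits 1, 2, 3, ...). -/
def BackStmt : Prop :=
  ∀ (G : Type) [Group G], Countable G → TreeAct G → Nonempty (TM G)

end Pool.Agent.Lib.MP_435286_al.CF
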