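import Pool.Agent.Lib.MP_435286_al.CF.Defs

/-!
Splitting of the structure tree module: blocks.
-/

namespace Pool.Agent.Lib.MP_435286_al.CF

open Pointwise

/-- `x` is an end of an edge leaving `C`. -/
def IsEnd {V : Type} (Y : SimpleGraph V) (C : Set V) (x : V) : Prop :=
  ∃ p ∈ cob Y C, x = p.1 ∨ x = p.2

/-- Adjacent, or two ends of edges leaving one tight cut. -/
def Near {V : Type} (Y : SimpleGraph V) (k : ℕ) (x y : V) : Prop :=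
  Y.Adj x y ∨ ∃ C, Tight Y k C ∧ IsEnd Y C x ∧ IsEnd Y C y

/-- Module BLOCK: the block of an orientation. -/
def BlockStmt : Prop :=
  ∀ (H V W : Type) [Group H] [MulAction H V] [MulAction H W] (Y : SimpleGraph V) (k : ℕ)
    (N : Set (Set V)) (side : W → Set (Set V)), Y.Connected →
    (∀ v, (Y.neighborSet v).Finite) →
    (∀ (h : H) (v w : V), Y.Adj v w → Y.Adj (h • v) (h • w)) →
    (∀ C ∈ N, Tight Y k C) → (∀ C ∈ N, Cᶜ ∈ N) → (∀ C ∈ N, ∀ D ∈ N, Nested C D) →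
    Function.Injective side → (∀ s, side s ⊆ N) → (∀ s, ∀ C ∈ N, C ∈ side s ↔ Cᶜ ∉ side s) →
    (∀ s, ∀ C ∈ side s, ∀ D ∈ N, C ⊆ D → D ∈ side s) →
    (∀ s x, {C | C ∈ side s ∧ x ∉ C}.Finite) →
    (∀ (h : H) s, ∀ C ∈ side s, h • C ∈ side (h • s)) →
    ∃ β : W → Set V, (∀ s, (β s).Nonempty) ∧ (∀ y, {s | y ∈ β s}.Finite) ∧
      (∀ (h : H) s, ∀ y ∈ β s, h • y ∈ β (h • s)) ∧
      (∀ s, ∀ C ∈ side s, (β s ∩ Cᶜ).Finite) ∧
      ∀ s, ∀ a ∈ β s, ∀ b ∈ β s,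
        Relation.ReflTransGen (fun x y => x ∈ β s ∧ y ∈ β s ∧ Near Y k x y) a b

end Pool.Agent.Lib.MP_435286_al.CF
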