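import Pool.Agent.Lib.MP_435286_al.CF.Defs
import Pool.Agent.Lib.MP_435286_al.Tri

/-!
From a tree-like norm to an action on a tree.
-/

namespace Pool.Agent.Lib.MP_435286_al.CF

open Pointwise

namespace Fwd

variable {G : Type} [Group G] (μ : TM G) (H : Subgroup G)

/-- The nonempty subsets of `H` of small diameter. -/
def Sm : Type := {S : Set G // S.Nonempty ∧ (∀ a ∈ S, a ∈ H) ∧
  ∀ a ∈ S, ∀ b ∈ S, μ.n (a⁻¹ * b) ≤ 5 * μ.δ}

instance : MulAction H (Sm μ H) where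
  smul h S := ⟨(h : G) • S.1, S.2.1.smul_set, by
    rintro _ ⟨a, ha, rfl⟩
    exact H.mul_mem h.2 (S.2.2.1 a ha), by
    rintro _ ⟨a, ha, rfl⟩ _ ⟨b, hb, rfl⟩
    simpa [mul_assoc] using S.2.2.2 a ha b hb⟩
  one_smul S := Subtype.ext (one_smul G S.1)
  mul_smul g h S := Subtype.ext (mul_smul (g : G) (h : G) S.1)

variable {H}

/-- One point sets. -/
def pt (x : H) : Sm μ H := ⟨{(x : G)}, Set.singleton_nonempty _, by
  rintro _ rfl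
  exact x.2, by
  rintro _ rfl _ rfl
  simp [μ.n_one]⟩

variable {μ}

/-- The largest distance. -/
noncomputable def ds (S S' : Sm μ H) : ℕ := sSup {m | ∃ a ∈ S.1, ∃ b ∈ S'.1, m = μ.n (a⁻¹ * b)}

lemma bd {S S' : Sm μ H} {a b a' b' : G} (ha : a ∈ S.1) (hb : b ∈ S'.1) (ha' : a' ∈ S.1)
    (hb' : b' ∈ S'.1) : μ.n (a'⁻¹ * b') ≤ μ.n (a⁻¹ * b) + 10 * μ.δ := by
  have h1 := μ.triT a' a b'
  have h2 := μ.triT a b b'
  have h3 := S.2.2.2 a' ha' a ha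
  have h4 := S'.2.2.2 b hb b' hb'
  omega

lemma bdd (S S' : Sm μ H) : BddAbove {m | ∃ a ∈ S.1, ∃ b ∈ S'.1, m = μ.n (a⁻¹ * b)} := by
  obtain ⟨a, ha⟩ := S.2.1
  obtain ⟨b, hb⟩ := S'.2.1
  refine ⟨μ.n (a⁻¹ * b) + 10 * μ.δ, ?_⟩
  rintro _ ⟨a', ha', b', hb', rfl⟩
  exact bd ha hb ha' hb'

lemma le_ds {S S' : Sm μ H} {a b : G} (ha : a ∈ S.1) (hb : b ∈ S'.1) :
    μ.n (a⁻¹ * b) ≤ ds S S' := le_csSup (bdd S S') ⟨a, ha, b, hb, rfl⟩

lemma ds_ex (S S' : Sm μ H) : ∃ a ∈ S.1, ∃ b ∈ S'.1, ds S S' = μ.n (a⁻¹ * b) := by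
  obtain ⟨a, ha⟩ := S.2.1
  obtain ⟨b, hb⟩ := S'.2.1
  refine Nat.sSup_mem ?_ (bdd S S')
  exact ⟨_, a, ha, b, hb, rfl⟩

lemma ds_le {S S' : Sm μ H} {a b : G} (ha : a ∈ S.1) (hb : b ∈ S'.1) :
    ds S S' ≤ μ.n (a⁻¹ * b) + 10 * μ.δ := by
  obtain ⟨a', ha', b', hb', e⟩ := ds_ex S S'
  exact e ▸ bd ha hb ha' hb'

lemma ds_symm (S S' : Sm μ H) : ds S S' = ds S' S := by
  have : ∀ S S' : Sm μ H, ds S S' ≤ ds S' S := fun S S' => by
    obtain ⟨a, ha, b, hb, e⟩ := ds_ex S S'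
    rw [e, μ.symT]
    exact le_ds hb ha
  exact le_antisymm (this _ _) (this _ _)

lemma ds_tri (S S' S'' : Sm μ H) : ds S S'' ≤ ds S S' + ds S' S'' := by
  obtain ⟨a, ha, c, hc, e⟩ := ds_ex S S''
  obtain ⟨b, hb⟩ := S'.2.1
  exact e ▸ (μ.triT a b c).trans (add_le_add (le_ds ha hb) (le_ds hb hc))

lemma ds_smul (h : H) (S S' : Sm μ H) : ds (h • S) (h • S') = ds S S' := by
  have : ∀ (h : H) (S S' : Sm μ H), ds (h • S) (h • S') ≤ ds S S' := fun h S S' => by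
    obtain ⟨_, ⟨a, ha, rfl⟩, _, ⟨b, hb, rfl⟩, e⟩ := ds_ex (h • S) (h • S')
    rw [e]
    simpa [mul_assoc] using le_ds ha hb
  refine le_antisymm (this _ _ _) ?_
  simpa using this h⁻¹ (h • S) (h • S')

lemma ball_fin (x : G) (r : ℕ) : {y | μ.n (x⁻¹ * y) ≤ r}.Finite :=
  (μ.proper r).preimage (mul_right_injective x⁻¹).injOn

lemma ds_fin (S : Sm μ H) (r : ℕ) : {S' | ds S S' ≤ r}.Finite := by
  obtain ⟨a, ha⟩ := S.2.1
  exact ((ball_fin (μ := μ) a r).finite_subsets.preimage Subtype.val_injective.injOn).subset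
    fun S' h b hb => (le_ds ha hb).trans h

lemma ds_sub {S S' : Sm μ H} (h : S'.1 ⊆ S.1) : ds S S' ≤ 5 * μ.δ := by
  obtain ⟨a, ha, b, hb, e⟩ := ds_ex S S'
  exact e ▸ S.2.2.2 a ha b (h hb)

lemma ds_pt (x y : H) : ds (pt μ x) (pt μ y) = μ.n ((x : G)⁻¹ * y) := by
  obtain ⟨_, rfl, _, rfl, e⟩ := ds_ex (pt μ x) (pt μ y)
  exact e

lemma ds_conn (hH : H = Subgroup.closure {g | μ.n g ≤ 8 * μ.δ}) (S S' : Sm μ H) :
    Relation.ReflTransGen (fun x y => ds x y ≤ 8 * μ.δ) S S' := by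
  subst hH
  have key : ∀ g (hg : g ∈ Subgroup.closure {g | μ.n g ≤ 8 * μ.δ}) x,
      Relation.ReflTransGen (fun x y => ds x y ≤ 8 * μ.δ) (pt μ x) (pt μ (x * ⟨g, hg⟩)) := by
    intro g hg
    induction hg using Subgroup.closure_induction'' with
    | mem g hg => exact fun x => .single (by simpa [ds_pt] using hg)
    | inv_mem g hg => exact fun x => .single (by simpa [ds_pt, μ.n_inv] using hg)
    | one => exact fun x => .single (by simp [ds_pt, μ.n_one])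
    | mul g g' hg hg' ih ih' =>
      intro x
      have := (ih x).trans (ih' _)
      rwa [mul_assoc] at this
  obtain ⟨a, ha⟩ := S.2.1
  obtain ⟨b, hb⟩ := S'.2.1
  have h1 := ds_sub (S := S) (S' := pt μ ⟨a, S.2.2.1 a ha⟩) (Set.singleton_subset_iff.2 ha)
  have h2 := ds_sub (S := S') (S' := pt μ ⟨b, S'.2.2.1 b hb⟩) (Set.singleton_subset_iff.2 hb)
  rw [ds_symm] at h2
  have h3 := key _ (mul_mem (inv_mem (S.2.2.1 a ha)) (S'.2.2.1 b hb)) ⟨a, S.2.2.1 a ha⟩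
  rw [show (⟨a, S.2.2.1 a ha⟩ * ⟨a⁻¹ * b, _⟩ : Subgroup.closure {g | μ.n g ≤ 8 * μ.δ}) =
    ⟨b, S'.2.2.1 b hb⟩ from Subtype.ext (mul_inv_cancel_left a b)] at h3
  exact (Relation.ReflTransGen.head (by omega) h3).tail (by omega)

lemma ds_chain : Chain (ds (μ := μ) (H := H)) (33 * μ.δ) := by
  intro o x n
  obtain ⟨a, ha⟩ := o.2.1
  choose h hh using fun i => (x i).2.1
  obtain ⟨i, hi, e⟩ := μ.chainT a n h
  refine ⟨i, hi, ?_⟩
  have h1 := ds_le ha (hh i)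
  have h2 := ds_le ha (hh (i + 1))
  have h3 := ds_le (hh 0) (hh (n + 1))
  have h4 := le_ds ha (hh 0)
  have h5 := le_ds ha (hh (n + 1))
  have h6 := le_ds (hh i) (hh (i + 1))
  omega

lemma stab_fin (S : Sm μ H) : Finite (MulAction.stabilizer H S) := by
  obtain ⟨a, ha⟩ := S.2.1
  have := (ball_fin (μ := μ) a (5 * μ.δ)).to_subtype
  refine Finite.of_injective (β := {y | μ.n (a⁻¹ * y) ≤ 5 * μ.δ})
    (fun h => ⟨h.1.1 * a, S.2.2.2 a ha _ ?_⟩) fun h h' e => ?_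
  · exact (congrArg Subtype.val h.2).subset ⟨a, ha, rfl⟩
  · exact Subtype.ext (Subtype.ext (mul_right_cancel (congrArg Subtype.val e)))

lemma orb_fin : Finite (MulAction.orbitRel.Quotient H (Sm μ H)) := by
  have := (ds_fin (pt μ (1 : H)) (5 * μ.δ)).to_subtype
  refine Finite.of_surjective (α := {S' | ds (pt μ (1 : H)) S' ≤ 5 * μ.δ})
    (fun S => Quotient.mk _ S.1) fun q => ?_
  obtain ⟨S, rfl⟩ := Quotient.exists_rep q
  obtain ⟨a, ha⟩ := S.2.1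
  refine ⟨⟨(⟨a, S.2.2.1 a ha⟩ : H)⁻¹ • S, ?_⟩, Quotient.sound ⟨_, rfl⟩⟩
  exact (ds_symm _ _).trans_le (ds_sub (Set.singleton_subset_iff.2 ⟨a, ha, inv_mul_cancel a⟩))

lemma smul_mk {s h : G} (e : s⁻¹ * h * s ∈ H) : h • (s : G ⧸ H) = s :=
  (QuotientGroup.eq.2 (by simpa [mul_assoc] using e) : (s : G ⧸ H) = (h * s : G)).symm

lemma mem_of {a : G} (e : (a : G ⧸ H) = (1 : G)) : a ∈ H := by
  simpa using QuotientGroup.eq.1 e.symm

end Fwd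

open Fwd in
theorem fwd (hg : GapStmt) (ht : TTStmt) (hb : BlowStmt) : FwdStmt := by
  classical
  intro G _ μ
  obtain ⟨H, hH⟩ : ∃ H : Subgroup G, H = Subgroup.closure {g | μ.n g ≤ 8 * μ.δ} := ⟨_, rfl⟩
  obtain ⟨B, S, h1, h2, h3, h4⟩ := hg G μ H hH
  have : Nonempty (Sm μ H) := ⟨pt μ 1⟩
  obtain ⟨W, _, T, pr, k1, k2, k3, k4, k5⟩ := ht H (Sm μ H) ds (33 * μ.δ) (8 * μ.δ) ds_symm ds_tri
    ds_smul ds_fin (fun a => (ds_sub subset_rfl).trans (by omega)) (ds_conn hH) ds_chain stab_fin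
    orb_fin
  refine hb G H B W T (fun Q => if h : B.Adj ((1 : G) : G ⧸ H) Q then
    pr ⟨S ((1 : G) : G ⧸ H) Q, (h4 _ _ h).1, fun a ha => mem_of ((h4 _ _ h).2.1 a ha),
      (h4 _ _ h).2.2⟩ else pr (pt μ 1)) h1 h2 k1 k2 k3 k4 fun h Q hQ => ?_
  have e : (h : G) • ((1 : G) : G ⧸ H) = (1 : G) := smul_mk (by simp)
  have h5 := h2 h _ _ hQ
  have h6 := h3 h ((1 : G) : G ⧸ H) Q
  rw [e] at h5 h6
  rw [dif_pos h5, dif_pos hQ, ← k5]
  exact congrArg pr (Subtype.ext h6)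

open Fwd in
theorem treeCond_of_tm (hg : GapStmt) (G : Type) [Group G] [Countable G] (μ : TM G) :
    TreeCond G := by
  obtain ⟨B, S, h1, h2, h3, h4⟩ := hg G μ _ rfl
  refine ⟨inferInstance, _, B, _, st_BallCF G μ _, h1, h2, μ.proper (5 * μ.δ), fun s hs => ?_⟩
  obtain ⟨⟨p, hp⟩, k1, k2⟩ := h4 _ _ hs
  refine ⟨p, mem_of (k1 p hp), fun h hh e => ?_⟩
  have h6 := h3 h ((1 : G) : G ⧸ _) s
  rw [smul_mk e, smul_mk (by simpa using hh)] at h6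
  rw [mul_assoc]
  exact k2 p hp _ (h6.symm.subset ⟨p, hp, rfl⟩)

end Pool.Agent.Lib.MP_435286_al.CF
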