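import Pool.Agent.Lib.MP_435286_al.CF.Defs
import Pool.Agent.Lib.MP_435286_al.Tri

/-!
Gaps of a tree-like norm and the tree of cosets of the subgroup generated by a ball.
-/

namespace Pool.Agent.Lib.MP_435286_al.CF

open Pointwise

section
variable {G : Type} [Group G] (μ : TM G)

/-- The left invariant metric of the norm. -/
def dd (a b : G) : ℕ := μ.n (a⁻¹ * b)

theorem dd_self (a : G) : dd μ a a = 0 := by simp [dd, μ.n_one]

theorem dd_symm (a b : G) : dd μ a b = dd μ b a := μ.symT a b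

theorem dd_tri (a b c : G) : dd μ a c ≤ dd μ a b + dd μ b c := μ.triT a b c

theorem dd_mul (g a b : G) : dd μ (g * a) (g * b) = dd μ a b := by
  unfold dd; congr 1; group

theorem dd_med (a b c : G) : ∃ m, dd μ a m + dd μ m b ≤ dd μ a b + μ.δ ∧
    dd μ b m + dd μ m c ≤ dd μ b c + μ.δ ∧ dd μ c m + dd μ m a ≤ dd μ c a + μ.δ := by
  obtain ⟨m, i, hi, h1, h2, h3⟩ := μ.qstar a 0 (fun i => if i = 0 then b else c)
  obtain rfl : i = 0 := by omega
  exact ⟨m, by simpa [dd] using h1, by simpa [dd] using h2, by simpa [dd] using h3⟩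

theorem dd_chain3 (o x y z : G) :
    dd μ o x + dd μ o y + dd μ x z ≤ dd μ o x + dd μ o z + dd μ x y + 3 * μ.δ ∨
    dd μ o y + dd μ o z + dd μ x z ≤ dd μ o x + dd μ o z + dd μ y z + 3 * μ.δ := by
  obtain ⟨i, hi, h⟩ := μ.chainT o 1 (fun i => if i = 0 then x else if i = 1 then y else z)
  rcases (by omega : i = 0 ∨ i = 1) with rfl | rfl
  · left; simpa [dd] using h
  · right; simpa [dd] using h

/-- No point lies between `a` and `b` except near the ends. -/
def Gap (a b : G) : Prop :=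
  ∀ m, dd μ a m + dd μ m b ≤ dd μ a b + μ.δ → dd μ a m ≤ μ.δ ∨ dd μ m b ≤ μ.δ

variable {μ}

theorem Gap.symm {a b : G} (h : Gap μ a b) : Gap μ b a := by
  intro m hm
  have h1 := dd_symm μ a m
  have h2 := dd_symm μ m b
  have h3 := dd_symm μ a b
  have := h m (by omega)
  omega

theorem Gap.mul {a b : G} (h : Gap μ a b) (g : G) : Gap μ (g * a) (g * b) := by
  intro m hm
  have e : m = g * (g⁻¹ * m) := by group
  rw [e] at hm ⊢
  simp only [dd_mul] at hm ⊢
  exact h _ hm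

theorem gap_chain (N : ℕ) : ∀ (n : ℕ) (a b : G), dd μ a b ≤ n → n ≤ N →
    Relation.ReflTransGen (fun x y => Gap μ x y ∧ dd μ x y ≤ N) a b := by
  intro n
  induction n with
  | zero =>
    intro a b h _
    exact Relation.ReflTransGen.single ⟨fun m hm => by omega, by omega⟩
  | succ n ih =>
    intro a b h hN
    by_cases hg : Gap μ a b
    · exact Relation.ReflTransGen.single ⟨hg, by omega⟩
    · simp only [Gap, not_forall] at hg
      obtain ⟨m, hm, hn⟩ := hg
      exact (ih a m (by omega) (by omega)).trans (ih m b (by omega) (by omega))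

theorem Gap.side {a b : G} (h : Gap μ a b) (hD : 8 * μ.δ < dd μ a b) (x : G) :
    (dd μ a x ≤ dd μ b x → dd μ a x + dd μ a b ≤ dd μ b x + 3 * μ.δ) ∧
    (¬ dd μ a x ≤ dd μ b x → dd μ b x + dd μ a b ≤ dd μ a x + 3 * μ.δ) := by
  obtain ⟨m, h1, h2, h3⟩ := dd_med μ a b x
  have t1 := dd_tri μ a m b
  have t2 := dd_tri μ a m x
  have t3 := dd_tri μ b m x
  have s1 := dd_symm μ m b
  have s2 := dd_symm μ x m
  have s3 := dd_symm μ m a
  have s4 := dd_symm μ x a
  have := h m h1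
  omega

theorem gap_half {a b x y : G} (hxy : Gap μ x y) (hD : 8 * μ.δ < dd μ a b)
    (hx : dd μ a x + dd μ a b ≤ dd μ b x + 3 * μ.δ)
    (hy : dd μ b y + dd μ a b ≤ dd μ a y + 3 * μ.δ) : dd μ a x ≤ 5 * μ.δ := by
  have hc := dd_chain3 μ a x y b
  obtain ⟨m, h1, h2, h3⟩ := dd_med μ x y a
  have t1 := dd_tri μ x m y
  have t2 := dd_tri μ a m x
  have t3 := dd_tri μ a m y
  have s1 := dd_symm μ x b
  have s2 := dd_symm μ y b
  have s3 := dd_symm μ y m
  have s4 := dd_symm μ m a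
  have s5 := dd_symm μ y a
  have s6 := dd_symm μ m x
  have := hxy m h1
  omega

theorem gap_cross {a b x y : G} (h : Gap μ a b) (hD : 8 * μ.δ < dd μ a b) (hxy : Gap μ x y)
    (hx : dd μ a x ≤ dd μ b x) (hy : ¬ dd μ a y ≤ dd μ b y) :
    dd μ a x ≤ 5 * μ.δ ∧ dd μ b y ≤ 5 * μ.δ := by
  have h1 := (h.side hD x).1 hx
  have h2 := (h.side hD y).2 hy
  have s := dd_symm μ a b
  exact ⟨gap_half hxy hD h1 h2, gap_half (a := b) (b := a) hxy.symm (by omega) (by omega) (by omega)⟩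

variable {H : Subgroup G}

theorem coset_of_dd (hH : H = Subgroup.closure {g | μ.n g ≤ 8 * μ.δ}) {a b : G}
    (h : dd μ a b ≤ 8 * μ.δ) : (a : G ⧸ H) = b := by
  rw [QuotientGroup.eq, hH]
  exact Subgroup.subset_closure h

theorem gap_long (hH : H = Subgroup.closure {g | μ.n g ≤ 8 * μ.δ}) {a b : G}
    (hne : (a : G ⧸ H) ≠ b) : 8 * μ.δ < dd μ a b := by
  by_contra hc
  exact hne (coset_of_dd hH (by omega))

theorem gap_cross_coset (hH : H = Subgroup.closure {g | μ.n g ≤ 8 * μ.δ}) {a b x y : G}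
    (h : Gap μ a b) (hne : (a : G ⧸ H) ≠ b) (hxy : Gap μ x y)
    (hx : dd μ a x ≤ dd μ b x) (hy : ¬ dd μ a y ≤ dd μ b y) :
    (a : G ⧸ H) = x ∧ (b : G ⧸ H) = y := by
  obtain ⟨h1, h2⟩ := gap_cross h (gap_long hH hne) hxy hx hy
  exact ⟨coset_of_dd hH (by omega), coset_of_dd hH (by omega)⟩

theorem gap_short (hH : H = Subgroup.closure {g | μ.n g ≤ 8 * μ.δ}) {a b : G}
    (h : Gap μ a b) (hne : (a : G ⧸ H) ≠ b) {x y : G} (hxy : dd μ x y ≤ 8 * μ.δ)
    (hx : dd μ a x ≤ dd μ b x) : dd μ a y ≤ dd μ b y := by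
  have hc := gap_chain (μ := μ) (8 * μ.δ) (8 * μ.δ) x y hxy le_rfl
  clear hxy
  induction hc with
  | refl => exact hx
  | tail _ hs ih =>
    by_contra hy
    obtain ⟨e1, e2⟩ := gap_cross_coset hH h hne hs.1 ih hy
    exact hne (e1.trans ((coset_of_dd hH hs.2).trans e2.symm))

theorem gap_nocross (hH : H = Subgroup.closure {g | μ.n g ≤ 8 * μ.δ}) {a b : G}
    (h : Gap μ a b) (hne : (a : G ⧸ H) ≠ b) {x y : G} (hxy : (x : G ⧸ H) = y) :
    dd μ a x ≤ dd μ b x ↔ dd μ a y ≤ dd μ b y := by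
  have key : ∀ g ∈ Subgroup.closure {g | μ.n g ≤ 8 * μ.δ}, ∀ x : G,
      (dd μ a x ≤ dd μ b x ↔ dd μ a (x * g) ≤ dd μ b (x * g)) := by
    intro g hg
    induction hg using Subgroup.closure_induction with
    | mem g hg =>
      intro x
      have e : dd μ x (x * g) ≤ 8 * μ.δ := by simpa [dd] using hg
      exact ⟨gap_short hH h hne e, gap_short hH h hne (by rwa [dd_symm])⟩
    | one => intro x; simp
    | mul g g' _ _ i1 i2 => intro x; rw [← mul_assoc]; exact (i1 x).trans (i2 _)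
    | inv g _ i1 => intro x; have := i1 (x * g⁻¹); simpa using this.symm
  rw [QuotientGroup.eq, hH] at hxy
  simpa using key _ hxy x

end

theorem gap : GapStmt := by
  intro G _ μ H hH
  let B : SimpleGraph (G ⧸ H) :=
    { Adj := fun P Q => P ≠ Q ∧ ∃ a b : G, (a : G ⧸ H) = P ∧ (b : G ⧸ H) = Q ∧ Gap μ a b
      symm := ⟨fun P Q ⟨h, a, b, h1, h2, h3⟩ => ⟨h.symm, b, a, h2, h1, h3.symm⟩⟩
      loopless := ⟨fun P h => h.1 rfl⟩ }
  refine ⟨B, fun P Q => {a | (a : G ⧸ H) = P ∧ ∃ b : G, (b : G ⧸ H) = Q ∧ Gap μ a b}, ⟨?_, ?_⟩,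
    ?_, ?_, ?_⟩
  · refine ⟨fun P Q => ?_⟩
    obtain ⟨a, rfl⟩ := QuotientGroup.mk_surjective P
    obtain ⟨b, rfl⟩ := QuotientGroup.mk_surjective Q
    have hc := gap_chain (μ := μ) (dd μ a b) (dd μ a b) a b le_rfl le_rfl
    generalize dd μ a b = N at hc
    induction hc with
    | refl => exact SimpleGraph.Reachable.refl _
    | @tail y z _ hs ih =>
      by_cases e : (y : G ⧸ H) = z
      · rw [← e]; exact ih
      · exact ih.trans (SimpleGraph.Adj.reachable ⟨e, y, z, rfl, rfl, hs.1⟩)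
  · rw [SimpleGraph.isAcyclic_iff_forall_isBridge]
    intro e he
    induction e using Sym2.ind with
    | _ P Q =>
      obtain ⟨hne, a, b, rfl, rfl, hab⟩ := (SimpleGraph.mem_edgeSet _).1 he
      rw [SimpleGraph.isBridge_iff, SimpleGraph.reachable_iff_reflTransGen]
      intro hr
      have key : ∀ R, Relation.ReflTransGen (B.deleteEdges {s((a : G ⧸ H), (b : G ⧸ H))}).Adj
          (a : G ⧸ H) R → ∀ x : G, (x : G ⧸ H) = R → dd μ a x ≤ dd μ b x := by
        intro R hR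
        induction hR with
        | refl =>
          intro x hx
          exact (gap_nocross hH hab hne hx).2 (by simp [dd_self])
        | tail _ hs ih =>
          intro x hx
          rw [SimpleGraph.deleteEdges_adj] at hs
          obtain ⟨⟨_, y, z, rfl, rfl, hyz⟩, hs2⟩ := hs
          refine (gap_nocross hH hab hne hx).2 ?_
          by_contra hz
          obtain ⟨e1, e2⟩ := gap_cross_coset hH hab hne hyz (ih y rfl) hz
          exact hs2 (by rw [e1, e2]; rfl)
      have h1 := key _ hr b rfl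
      have h2 := gap_long hH hne
      rw [dd_self] at h1
      omega
  · rintro g P Q ⟨hne, a, b, rfl, rfl, hab⟩
    exact ⟨fun e => hne (smul_left_cancel g e), g * a, g * b, rfl, rfl, hab.mul g⟩
  · intro g P Q
    ext a
    rw [Set.mem_smul_set_iff_inv_smul_mem]
    simp only [Set.mem_ofPred_eq, smul_eq_mul]
    constructor
    · rintro ⟨h1, b, h2, h3⟩
      refine ⟨?_, g⁻¹ * b, ?_, h3.mul _⟩
      · change g⁻¹ • (a : G ⧸ H) = P
        rw [h1, inv_smul_smul]
      · change g⁻¹ • (b : G ⧸ H) = Q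
        rw [h2, inv_smul_smul]
    · rintro ⟨h1, b, h2, h3⟩
      refine ⟨?_, g * b, ?_, by simpa using h3.mul g⟩
      · rw [← h1]
        change (a : G ⧸ H) = ((g * (g⁻¹ * a) : G) : G ⧸ H)
        simp
      · rw [← h2]; rfl
  · rintro P Q ⟨hne, a0, b0, rfl, rfl, h0⟩
    refine ⟨⟨a0, rfl, b0, rfl, h0⟩, fun a ha => ha.1, ?_⟩
    rintro a ⟨ha, b, hb, hab⟩ x ⟨hx, y, hy, hxy⟩
    have hne' : (a : G ⧸ H) ≠ b := by rw [ha, hb]; exact hne
    have hD := gap_long hH hne'
    refine (gap_cross hab hD hxy ?_ ?_).1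
    · exact (gap_nocross hH hab hne' (hx.trans ha.symm)).2 (by simp [dd_self])
    · rw [gap_nocross hH hab hne' (hy.trans hb.symm), dd_self]
      omega

end Pool.Agent.Lib.MP_435286_al.CF
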