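import Pool.Agent.Lib.MP_435286_al.CF.Gap
import Pool.Agent.Lib.MP_435286_al.CF.TT
import Pool.Agent.Lib.MP_435286_al.CF.Fin
import Pool.Agent.Lib.MP_435286_al.CF.Nest
import Pool.Agent.Lib.MP_435286_al.CF.Ori
import Pool.Agent.Lib.MP_435286_al.CF.Block
import Pool.Agent.Lib.MP_435286_al.CF.Blow
import Pool.Agent.Lib.MP_435286_al.CF.Fwd
import Pool.Agent.Lib.MP_435286_al.CF.Back
import Pool.Agent.Lib.MP_435286_al.TMx
import Pool.Agent.Lib.MP_435286_al.Real

/-!
Assembly: letter-to-letter images of context-free languages, and the cycle of implications.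
-/

namespace Pool.Agent.Lib.MP_435286_al.CF

/-- Renaming of terminals in a symbol. -/
def symMap {T T' N : Type} (f : T → T') : Symbol T N → Symbol T' N
  | .terminal t => .terminal (f t)
  | .nonterminal n => .nonterminal n

theorem cf_image {T T' : Type} (f : T → T') {L : Language T} (hL : L.IsContextFree) :
    Language.IsContextFree ({w' | ∃ w ∈ L, w' = w.map f} : Language T') := by
  classical
  obtain ⟨g, rfl⟩ := hL
  let g' : ContextFreeGrammar T' :=
    ⟨g.NT, g.initial, g.rules.image fun r => ⟨r.input, r.output.map (symMap f)⟩⟩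
  have h1 : ∀ s w, Gen g s w → Gen g' (s.map (symMap f)) (w.map f) := by
    intro s w h
    induction h with
    | nil => exact Gen.nil
    | term t _ ih => exact Gen.term (f t) ih
    | nonterm r hr _ _ iha ihb =>
      rw [List.map_append]
      exact Gen.nonterm (g := g') ⟨r.input, r.output.map (symMap f)⟩
        (Finset.mem_image.2 ⟨r, hr, rfl⟩) iha ihb
  have h2 : ∀ s' w', Gen g' s' w' → ∀ s : List (Symbol T g.NT), s.map (symMap f) = s' →
      ∃ w, Gen g s w ∧ w' = w.map f := by
    intro s' w' h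
    induction h with
    | nil =>
      intro s hs
      obtain rfl := List.map_eq_nil_iff.1 hs
      exact ⟨[], Gen.nil, rfl⟩
    | term t _ ih =>
      intro s hs
      obtain ⟨a, s0, rfl, ha, hs0⟩ := List.map_eq_cons_iff.1 hs
      obtain ⟨w, hw, rfl⟩ := ih s0 hs0
      cases a with
      | terminal t0 =>
        obtain rfl : f t0 = t := by simpa [symMap] using ha
        exact ⟨t0 :: w, Gen.term t0 hw, rfl⟩
      | nonterminal n => simp [symMap] at ha
    | nonterm r hr _ _ iha ihb =>
      intro s hs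
      obtain ⟨a, s0, rfl, ha, hs0⟩ := List.map_eq_cons_iff.1 hs
      obtain ⟨r0, hr0, rfl⟩ := Finset.mem_image.1 hr
      obtain ⟨w1, hw1, rfl⟩ := iha r0.output rfl
      obtain ⟨w2, hw2, rfl⟩ := ihb s0 hs0
      cases a with
      | terminal t0 => simp [symMap] at ha
      | nonterminal n =>
        obtain rfl : n = r0.input := by simpa [symMap] using ha
        exact ⟨w1 ++ w2, Gen.nonterm r0 hr0 hw1 hw2, by simp⟩
  refine ⟨g', ?_⟩
  ext w'
  rw [mem_language_iff_gen]
  constructor
  · intro h
    obtain ⟨w, hw, rfl⟩ := h2 _ _ h [Symbol.nonterminal g.initial] rfl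
    exact ⟨w, (mem_language_iff_gen w).2 hw, rfl⟩
  · rintro ⟨w, hw, rfl⟩
    exact h1 _ _ ((mem_language_iff_gen w).1 hw)

/-- A generating family may be replaced by its image, a finite subset of the monoid. -/
theorem hasCFWP_iff (M : Type) [Monoid M] :
    HasCFWP M ↔ ∃ A : Finset M, Submonoid.closure (A : Set M) = ⊤ ∧
      (WP (fun a : A => (a : M))).IsContextFree := by
  constructor
  · rintro ⟨A, hA, gen, hgen, hcf⟩
    have hfin : (Set.range gen).Finite := Set.finite_range gen
    refine ⟨hfin.toFinset, by simpa using hgen, ?_⟩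
    let ρ : A → hfin.toFinset := fun a => ⟨gen a, by simp⟩
    have hρ : Function.Surjective ρ := by
      rintro ⟨x, hx⟩
      obtain ⟨a, rfl⟩ : x ∈ Set.range gen := by simpa using hx
      exact ⟨a, rfl⟩
    have key := cf_image (Option.map ρ) hcf
    have e : ∀ u : List A, (u.map ρ).map (fun a : hfin.toFinset => (a : M)) = u.map gen := by
      intro u; rw [List.map_map]; rfl
    convert key using 1
    ext w
    constructor
    · rintro ⟨u, v, rfl, huv⟩
      obtain ⟨u, rfl⟩ := hρ.list_map u
      obtain ⟨v, rfl⟩ := hρ.list_map v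
      refine ⟨_, ⟨u, v, rfl, by rwa [e, e] at huv⟩, ?_⟩
      simp [List.map_reverse, Function.comp_def]
    · rintro ⟨_, ⟨u, v, rfl, huv⟩, rfl⟩
      refine ⟨u.map ρ, v.map ρ, ?_, by rwa [e, e]⟩
      simp [List.map_reverse, Function.comp_def]
  · rintro ⟨A, hA, hcf⟩
    exact ⟨A, inferInstance, _, by simpa using hA, hcf⟩

theorem countable_of_tm {G : Type} [Group G] (μ : TM G) : Countable G := by
  rw [← Set.countable_univ_iff]
  refine (Set.countable_iUnion fun r => (μ.proper r).countable).mono fun g _ => ?_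
  exact Set.mem_iUnion.2 ⟨μ.n g, show μ.n g ≤ μ.n g from le_rfl⟩

theorem tree_of_maxSub {G M : Type} [Group G] [Monoid M] (φ : G →ₙ* M) (hM : HasCFWP M)
    (hφ : IsMaxSub φ) : Countable G ∧ TreeAct G := by
  obtain ⟨μ⟩ := st_TM G M φ hM hφ
  exact ⟨countable_of_tm μ, fwd gap (tt fin (nest fin) ori (block fin)) blow G μ⟩

theorem units_of_tree {G : Type} [Group G] (hc : Countable G) (ht : TreeAct G) :
    ∃ (M : Type) (_ : Monoid M), HasCFWP M ∧ Nonempty (Mˣ ≃* G) := by
  obtain ⟨μ⟩ := back G hc ht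
  exact st_Real G (treeCond_of_tm gap G μ)

theorem maxSub_of_units {G M : Type} [Group G] [Monoid M] (e : Mˣ ≃* G) :
    ∃ φ : G →ₙ* M, IsMaxSub φ := by
  refine ⟨⟨fun g => (e.symm g : M), fun a b => by simp⟩, ?_, ?_⟩
  · intro a b h
    exact e.symm.injective (Units.ext h)
  · intro x y _ _ h1 h2
    simp only [MulHom.coe_mk, map_one, Units.val_one] at h1 h2
    exact ⟨e ⟨x, y, h1, h2⟩, by simp⟩

end Pool.Agent.Lib.MP_435286_al.CF
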