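import Mathlib

/-!
The tree condition in the classification of unit groups of context-free monoids.
-/

namespace Pool.Agent.Lib.MP_435286_al.CF

/-- `G` acts on a tree by automorphisms (edges may be inverted) with finite vertex stabilisers
and finitely many orbits of vertices. -/
def TreeAct (G : Type) [Group G] : Prop :=
  ∃ (V : Type) (_ : MulAction G V) (T : SimpleGraph V), T.IsTree ∧
    (∀ (g : G) (v w : V), T.Adj v w → T.Adj (g • v) (g • w)) ∧
    (∀ v : V, Finite (MulAction.stabilizer G v)) ∧ Finite (MulAction.orbitRel.Quotient G V)

end Pool.Agent.Lib.MP_435286_al.CF
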